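import Pool.Agent.Y742.HC.Jet

/-! Project HC, STEP: moving a point along a family of curves (helper742). -/

set_option autoImplicit false

namespace Pool.Agent.Y742.HC

open MvPolynomial

section

variable {k : Type} [Field k] {N : ℕ}

/-- the numerators -/
theorem exists_num (μ : Cv k N) (P : MvPolynomial (Fin N) k) :
    ∃ (H : Polynomial (MvPolynomial (Fin N) k)) (n : ℕ), ∀ (E : Type) [Field E] [Algebra k E]
      (c : Fin N → E), μ.den.map (aeval c : MvPolynomial (Fin N) k →ₐ[k] E).toRingHom ≠ 0 →
      aeval (μ.pt c) P * algebraMap (Polynomial E) (RatFunc E)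
        (μ.den.map (aeval c : MvPolynomial (Fin N) k →ₐ[k] E).toRingHom) ^ n =
      algebraMap (Polynomial E) (RatFunc E)
        (H.map (aeval c : MvPolynomial (Fin N) k →ₐ[k] E).toRingHom) := by
  induction P using MvPolynomial.induction_on with
  | C a =>
    refine ⟨Polynomial.C (C a), 0, fun E _ _ c _ => ?_⟩
    rw [aeval_C, pow_zero, mul_one, Polynomial.map_C,
      IsScalarTower.algebraMap_apply k (Polynomial E) (RatFunc E)]
    congr 1
    rw [IsScalarTower.algebraMap_apply k E (Polynomial E), Polynomial.algebraMap_eq]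
    simp
  | add p q hp hq =>
    obtain ⟨H, n, h⟩ := hp
    obtain ⟨H', n', h'⟩ := hq
    refine ⟨H * μ.den ^ n' + H' * μ.den ^ n, n + n', fun E _ _ c hc => ?_⟩
    have h1 := h E c hc
    have h2 := h' E c hc
    simp only [map_add, Polynomial.map_add, Polynomial.map_mul, Polynomial.map_pow, map_mul,
      map_pow, ← h1, ← h2]
    ring
  | mul_X p i hp =>
    obtain ⟨H, n, h⟩ := hp
    refine ⟨H * μ.num i, n + 1, fun E _ _ c hc => ?_⟩
    have h1 := h E c hc
    have h3 : algebraMap (Polynomial E) (RatFunc E)
        (μ.den.map (aeval c : MvPolynomial (Fin N) k →ₐ[k] E).toRingHom) ≠ 0 := by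
      rwa [Ne, map_eq_zero_iff _ (IsFractionRing.injective (Polynomial E) (RatFunc E))]
    have h5 : μ.pt c i * algebraMap (Polynomial E) (RatFunc E)
        (μ.den.map (aeval c : MvPolynomial (Fin N) k →ₐ[k] E).toRingHom) =
        algebraMap (Polynomial E) (RatFunc E)
          ((μ.num i).map (aeval c : MvPolynomial (Fin N) k →ₐ[k] E).toRingHom) :=
      div_mul_cancel₀ _ h3
    simp only [Polynomial.map_mul, map_mul, aeval_X, ← h1, ← h5, pow_succ]
    ring

end

theorem sStep : SStep := by
  intro k K _ _ _ _ N x D μ hμ E _ _ c hc hd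
  have hcoeff : ∀ (p : Polynomial (MvPolynomial (Fin N) k)) (F : Type) [Field F] [Algebra k F]
      (y : Fin N → F) (j : ℕ),
      (p.map (aeval y : MvPolynomial (Fin N) k →ₐ[k] F).toRingHom).coeff j = aeval y (p.coeff j) := by
    intro p F _ _ y j
    rw [Polynomial.coeff_map]
    rfl
  have hne : ∀ (F : Type) [Field F] [Algebra k F] (y : Fin N → F), aeval y (μ.den.coeff 0) ≠ 0 →
      μ.den.map (aeval y : MvPolynomial (Fin N) k →ₐ[k] F).toRingHom ≠ 0 := by
    intro F _ _ y h h0
    apply h
    rw [← hcoeff, h0, Polynomial.coeff_zero]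
  constructor
  · intro P hP
    obtain ⟨H, n, h⟩ := exists_num μ P
    have h1 := h K x (hne K x hμ.den0)
    rw [hμ.maps P hP, zero_mul] at h1
    have h2 : H.map (aeval x : MvPolynomial (Fin N) k →ₐ[k] K).toRingHom = 0 :=
      (map_eq_zero_iff _ (IsFractionRing.injective (Polynomial K) (RatFunc K))).1 h1.symm
    have h3 : H.map (aeval c : MvPolynomial (Fin N) k →ₐ[k] E).toRingHom = 0 := by
      ext j
      rw [hcoeff, Polynomial.coeff_zero]
      apply hc
      rw [← hcoeff, h2, Polynomial.coeff_zero]
    have h4 := h E c (hne E c hd)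
    rw [h3, map_zero] at h4
    refine (mul_eq_zero.1 h4).resolve_right (pow_ne_zero _ ?_)
    rw [Ne, map_eq_zero_iff _ (IsFractionRing.injective (Polynomial E) (RatFunc E))]
    exact hne E c hd
  · -- jets
    have hX : ∀ l, Rd (c l) (μ.pt c l) (aeval c (μ.vel l) / aeval c (μ.den.coeff 0) ^ 2) := by
      intro l
      have hb : aeval c ((μ.num l).coeff 0) = c l * aeval c (μ.den.coeff 0) := by
        have h1 : aeval x ((μ.num l).coeff 0 - X l * μ.den.coeff 0) = 0 := by
          rw [map_sub, map_mul, aeval_X, hμ.base l, sub_self]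
        have h2 := hc _ h1
        rw [map_sub, map_mul, aeval_X] at h2
        exact sub_eq_zero.1 h2
      refine ⟨_, μ.den.map (aeval c : MvPolynomial (Fin N) k →ₐ[k] E).toRingHom, ?_, ?_, ?_,
        div_mul_cancel₀ _ ?_⟩
      · rw [hcoeff]
        exact hd
      · rw [hcoeff, hcoeff, hb]
      · rw [hcoeff, hcoeff, hcoeff, Cv.vel, map_sub, map_mul, map_mul, hb]
        field_simp
      · rw [Ne, map_eq_zero_iff _ (IsFractionRing.injective (Polynomial E) (RatFunc E))]
        exact hne E c hd
    have hall : ∀ g : MvPolynomial (Fin N) k, Rd (aeval c g) (aeval (μ.pt c) g)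
        (∑ l, aeval c (pderiv l g) * (aeval c (μ.vel l) / aeval c (μ.den.coeff 0) ^ 2)) := by
      intro g
      induction g using MvPolynomial.induction_on with
      | C a =>
        have h1 := Rd.const (K := E) (algebraMap k E a)
        have h2 : algebraMap (Polynomial E) (RatFunc E) (Polynomial.C (algebraMap k E a)) =
            algebraMap k (RatFunc E) a := by
          rw [IsScalarTower.algebraMap_apply k (Polynomial E) (RatFunc E)]
          rfl
        rw [h2] at h1
        simpa using h1
      | add p q hp hq =>
        have h1 := hp.add hq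
        rw [← Finset.sum_add_distrib] at h1
        simp only [map_add]
        convert h1 using 2
        ring
      | mul_X p i hp =>
        have h1 := hp.mul (hX i)
        rw [map_mul, map_mul, aeval_X, aeval_X]
        convert h1 using 1
        simp only [Derivation.leibniz, smul_eq_mul, map_add, map_mul, aeval_X, pderiv_X, add_mul,
          Finset.sum_add_distrib]
        congr 1
        · rw [Finset.sum_eq_single i]
          · simp [Pi.single_apply]
          · intro l _ hl
            simp [Pi.single_apply, hl, Ne.symm hl]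
          · intro h
            exact absurd (Finset.mem_univ i) h
        · rw [Finset.mul_sum]
          refine Finset.sum_congr rfl fun l _ => ?_
          ring
    intro g hg
    have h1 := hall g
    rw [hg] at h1
    have h0 := Rd.const (K := E) 0
    rw [map_zero, map_zero] at h0
    obtain ⟨h2, h3⟩ := h1.unique h0
    refine ⟨h2, ?_⟩
    have h4 : ∑ l, aeval c (pderiv l g) * aeval c (μ.vel l) = aeval c (μ.den.coeff 0) ^ 2 *
        ∑ l, aeval c (pderiv l g) * (aeval c (μ.vel l) / aeval c (μ.den.coeff 0) ^ 2) := by
      rw [Finset.mul_sum]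
      refine Finset.sum_congr rfl fun l _ => ?_
      field_simp
    rw [h4, h3, mul_zero]

end Pool.Agent.Y742.HC
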