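import Pool.Agent.Y742.HC.Fin
import Pool.Agent.Y742.HC.Step
import Pool.Agent.Y480.HC.ConA
import Pool.Agent.Y427.HC.Eq
import Pool.Agent.Y849.HC.Hyp

/-!
# Project HC: varieties with conic fibrations without common invariants

Parts by helper480 (conics through a point), helper328 (common denominators), helper427
(specializations), helper161 (fields of rational functions), helper849 (hypersurfaces), helper780
(points of schemes), helper500 (ramification); the rest and the assembly by helper742.
-/

set_option autoImplicit false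

namespace Pool.Agent.Y742.HC

open AlgebraicGeometry CategoryTheory W560.HP Pool.Agent.TH178.HI

theorem sCon : SCon := Pool.Agent.Y328.HC.sConB Pool.Agent.Y480.HC.sConA

/-- Over an algebraically closed field. -/
theorem closed {k K : Type} [Field k] [CharZero k] [IsAlgClosed k] [Field K] [Algebra k K]
    (hfg : ∃ S : Finset K, IntermediateField.adjoin k (S : Set K) = ⊤) {m : ℕ}
    (L : Fin m → IntermediateField k K) (hL : ∀ i, IsConicOver (L i))
    (hinv : ∀ a : K, (∀ i, IsAlgebraic (L i) a) → a ∈ Set.range (algebraMap k K)) :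
    ∃ n : ℕ, Nonempty (K →ₐ[k] FractionRing (MvPolynomial (Fin n) k)) :=
  closed_main sCon sStep Pool.Agent.Y427.HC.sEq Pool.Agent.Y161.HC.sPure Pool.Agent.Y849.HC.sHyp
    hfg L hL hinv

/-- Over any field of characteristic zero. -/
theorem opens (k : Type) [Field k] [CharZero k] (K : Type) [Field K]
    [Algebra k K] (X : Scheme.{0}) (p : X ⟶ Spec (CommRingCat.of k)) [IsIntegral X]
    [LocallyOfFiniteType p] (hX : HasFunctionField k X p K) {m : ℕ}
    (L : Fin m → IntermediateField k K)
    (hL : ∀ i, IsConicOver (L i))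
    (hinv : ∀ a : K, (∀ i, IsAlgebraic (L i) a) → a ∈ Set.range (algebraMap k K)) :
    ∃ V : X.Opens, (V : Set X).Nonempty ∧
      [∃ s : Spec (CommRingCat.of k) ⟶ X, s ≫ p = 𝟙 _ ∧ ∃ z ∈ V, z ∈ Set.range s.base,
        DensePoints k X p, UnirationalScheme k X p].TFAE :=
  open_main sCon sStep Pool.Agent.Y427.HC.sEq Pool.Agent.Y161.HC.sPure Pool.Agent.Y849.HC.sHyp
    k K X p hX L hL hinv

/-- The Hilbert property. -/
theorem hilb (k : Type) [Field k] [CharZero k]
    (hk : ∃ S : Finset k, IntermediateField.adjoin ℚ (S : Set k) = ⊤) (K : Type) [Field K]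
    [Algebra k K] (X : Scheme.{0}) (p : X ⟶ Spec (CommRingCat.of k)) [IsIntegral X]
    [LocallyOfFiniteType p] (e : X.functionField ≃+* K)
    (he : ∀ a : k, e (toFF k X p a) = algebraMap k K a)
    (hd : DensePoints k X p) {m : ℕ} (L : Fin m → IntermediateField k K)
    (hL : ∀ i, IsConicOver (L i))
    (hinv : ∀ a : K, (∀ i, IsAlgebraic (L i) a) → a ∈ Set.range (algebraMap k K)) :
    (∃ n : ℕ, Nonempty (K →ₐ[k] FractionRing (MvPolynomial (Fin n) k))) ∧
    ((∀ (M : Type) [Field M] [Algebra k M] [Algebra K M] [IsScalarTower k K M]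
      [FiniteDimensional K M], (∀ a : M, IsAlgebraic k a → a ∈ Set.range (algebraMap k M)) →
      (∀ i, IntermediateField.adjoin K {z : M | IsAlgebraic (L i) z} = ⊤) →
      (∀ P : FF.Place k K, (∃ i, Horizontal (L i) P) → UnramifiedAt M P) →
      Function.Surjective (algebraMap K M)) →
      HilbertProperty k X p ∧
      ((∀ x : X, IsIntegrallyClosed (X.presheaf.stalk x)) → HilbertPropertyIso k X p)) ∧
    ((∀ P : FF.Place k K, PlaceOn k X e P → ∃ i, Horizontal (L i) P) →
      (∀ (M : Type) [Field M] [Algebra k M] [Algebra K M] [IsScalarTower k K M]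
        [FiniteDimensional K M], (∀ a : M, IsAlgebraic k a → a ∈ Set.range (algebraMap k M)) →
        (∀ P : FF.Place k K, PlaceOn k X e P → UnramifiedAt M P) →
        Function.Surjective (algebraMap K M)) →
      HilbertProperty k X p ∧
      ((∀ x : X, IsIntegrallyClosed (X.presheaf.stalk x)) → HilbertPropertyIso k X p)) :=
  scheme_main sCon sStep Pool.Agent.Y427.HC.sEq Pool.Agent.Y161.HC.sPure
    Pool.Agent.Y849.HC.sHyp k hk K X p e he hd L hL hinv

end Pool.Agent.Y742.HC
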