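import Pool.Agent.TH178.HI.CritFin

/-! Project HC: covers inside fields of rational functions. -/

set_option autoImplicit false

namespace Pool.Agent.Y742.HC

open Pool.Agent.TH178.HI

/-- `k` is algebraically closed in the field of rational functions. -/
theorem alg_frac {k ι : Type} [Field k] (a : FractionRing (MvPolynomial ι k))
    (ha : IsAlgebraic k a) : a ∈ Set.range (algebraMap k (FractionRing (MvPolynomial ι k))) := by
  by_cases h0 : a = 0
  · exact ⟨0, by rw [map_zero, h0]⟩
  have h1 : IsIntegral k a := ha.isIntegral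
  have h2 : IsIntegral (MvPolynomial ι k) a := h1.tower_top
  obtain ⟨y, hy⟩ := (IsIntegrallyClosed.isIntegral_iff (R := MvPolynomial ι k)
    (K := FractionRing (MvPolynomial ι k))).1 h2
  have h1' : IsIntegral k a⁻¹ := ha.inv.isIntegral
  have h2' : IsIntegral (MvPolynomial ι k) a⁻¹ := h1'.tower_top
  obtain ⟨z, hz⟩ := (IsIntegrallyClosed.isIntegral_iff (R := MvPolynomial ι k)
    (K := FractionRing (MvPolynomial ι k))).1 h2'
  have h3 : y * z = 1 := by
    apply IsFractionRing.injective (MvPolynomial ι k) (FractionRing (MvPolynomial ι k))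
    rw [map_mul, hy, hz, map_one, mul_inv_cancel₀ h0]
  have h4 : IsUnit y := IsUnit.of_mul_eq_one z h3
  obtain ⟨c, -, hc⟩ := MvPolynomial.isUnit_iff_eq_C_of_isReduced.1 h4
  refine ⟨c, ?_⟩
  rw [← hy, hc, ← MvPolynomial.algebraMap_eq, ← IsScalarTower.algebraMap_apply]

/-- The cover. -/
theorem cov {k K : Type} [Field k] [CharZero k] [Field K] [Algebra k K] {ι : Type} [Finite ι]
    (φ : K →ₐ[k] FractionRing (MvPolynomial ι k)) {I : Type} (L : I → IntermediateField k K)
    (hL : ∀ i, IsConicOver (L i)) :
    ∃ (M : Type) (_ : Field M) (_ : Algebra k M) (_ : Algebra K M) (_ : IsScalarTower k K M)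
      (_ : FiniteDimensional K M),
      (∀ a : M, IsAlgebraic k a → a ∈ Set.range (algebraMap k M)) ∧
      (∀ i, IntermediateField.adjoin K {z : M | IsAlgebraic (L i) z} = ⊤) ∧ Realizable k M := by
  let Ω := FractionRing (MvPolynomial ι k)
  let _ : Algebra K Ω := φ.toRingHom.toAlgebra
  have : IsScalarTower k K Ω := IsScalarTower.of_algebraMap_eq fun a => (φ.commutes a).symm
  have hess : Algebra.EssFiniteType k Ω := by
    have h1 : Algebra.EssFiniteType k (MvPolynomial ι k) := inferInstance
    have h2 : Algebra.EssFiniteType (MvPolynomial ι k) Ω :=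
      .of_isLocalization _ (nonZeroDivisors _)
    exact .comp k (MvPolynomial ι k) Ω
  have hess' : Algebra.EssFiniteType K Ω := .of_comp k _ _
  obtain ⟨M, -, h2, h3, h4⟩ := criterion (k := k) (K := K) (Ω₀ := Ω) (pure_frac k ι) L hL
  refine ⟨M, inferInstance, inferInstance, inferInstance, inferInstance, h2, ?_, ?_, h3⟩
  · intro a ha
    have h5 : IsAlgebraic k (a : Ω) := ha.algHom (M.val.restrictScalars k)
    obtain ⟨c, hc⟩ := alg_frac (a : Ω) h5
    refine ⟨c, ?_⟩
    apply Subtype.ext
    rw [← hc]
    rfl
  · intro i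
    have h5 := h4 i
    have h6 : IntermediateField.lift (IntermediateField.adjoin K {z : M | IsAlgebraic (L i) z}) =
        M := by
      refine le_antisymm (IntermediateField.lift_le _) ?_
      rw [IntermediateField.lift_adjoin]
      refine h5.trans ?_
      apply IntermediateField.adjoin.mono
      rintro z ⟨hz, hza⟩
      refine ⟨⟨z, hz⟩, ?_, rfl⟩
      exact (isAlgebraic_algebraMap_iff (R := L i) (S := M) (A := Ω)
        (algebraMap M Ω).injective).1 hza
    have h7 : IntermediateField.lift (IntermediateField.adjoin K {z : M | IsAlgebraic (L i) z}) =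
        IntermediateField.lift (⊤ : IntermediateField K M) := by
      rw [h6, IntermediateField.lift_top]
    exact IntermediateField.lift_injective M h7

end Pool.Agent.Y742.HC
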