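import Pool.Agent.Y742.HC.Stm

/-! Rational points of unirational schemes are dense. The second proof follows `W253/HP/Sch.lean`. -/

set_option autoImplicit false

namespace Pool.Agent.Y742.HC

open MvPolynomial AlgebraicGeometry CategoryTheory W560.HP

theorem point_of_uni {k A : Type} [Field k] [Infinite k] [CommRing A] [Algebra k A]
    [Algebra.FiniteType k A] {n : ℕ}
    (ψ : A →ₐ[k] FractionRing (MvPolynomial (Fin n) k)) : Nonempty (A →ₐ[k] k) := by
  classical
  obtain ⟨s, hs⟩ := (Algebra.FiniteType.out : (⊤ : Subalgebra k A).FG)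
  obtain ⟨b, hb⟩ := IsLocalization.exist_integer_multiples_of_finset
    (nonZeroDivisors (MvPolynomial (Fin n) k)) (s.image ψ)
  have hb0 : (b : MvPolynomial (Fin n) k) ≠ 0 := nonZeroDivisors.ne_zero b.2
  obtain ⟨c, hc⟩ : ∃ c : Fin n → k, eval c (b : MvPolynomial (Fin n) k) ≠ 0 := by
    by_contra hcon
    push Not at hcon
    exact hb0 (MvPolynomial.funext fun c => by rw [hcon c, map_zero])
  have hS : Submonoid.powers (b : MvPolynomial (Fin n) k) ≤
      nonZeroDivisors (MvPolynomial (Fin n) k) := by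
    rw [Submonoid.powers_le]
    exact b.2
  let B := Localization.subalgebra (FractionRing (MvPolynomial (Fin n) k))
    (Submonoid.powers (b : MvPolynomial (Fin n) k)) hS
  have hloc : IsLocalization (Submonoid.powers (b : MvPolynomial (Fin n) k)) B := inferInstance
  have hu : ∀ y : Submonoid.powers (b : MvPolynomial (Fin n) k), IsUnit (eval c (y : MvPolynomial (Fin n) k)) := by
    rintro ⟨_, m, rfl⟩
    rw [map_pow]
    exact (isUnit_iff_ne_zero.2 hc).pow m
  let g : B →+* k := IsLocalization.lift hu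
  have hg : ∀ P : MvPolynomial (Fin n) k, g (algebraMap _ B P) = eval c P := fun P =>
    IsLocalization.lift_eq hu P
  have hmem : ∀ a : A, ψ a ∈ B := by
    intro a
    have ha : a ∈ Algebra.adjoin k (s : Set A) := by
      rw [hs]
      exact Algebra.mem_top
    induction ha using Algebra.adjoin_induction with
    | mem x hx =>
      obtain ⟨P, hP⟩ := hb (ψ x) (Finset.mem_image_of_mem ψ hx)
      have hbu : IsUnit (algebraMap (MvPolynomial (Fin n) k) B b) :=
        IsLocalization.map_units B (⟨b, Submonoid.mem_powers _⟩ :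
          Submonoid.powers (b : MvPolynomial (Fin n) k))
      obtain ⟨u, hu'⟩ := hbu.exists_right_inv
      have h2 : algebraMap (MvPolynomial (Fin n) k) (FractionRing (MvPolynomial (Fin n) k)) b *
          (u : FractionRing (MvPolynomial (Fin n) k)) = 1 := congrArg Subtype.val hu'
      have h1 : ψ x = ((algebraMap (MvPolynomial (Fin n) k) B P * u : B) :
          FractionRing (MvPolynomial (Fin n) k)) := by
        rw [Algebra.smul_def] at hP
        show ψ x = algebraMap (MvPolynomial (Fin n) k) (FractionRing (MvPolynomial (Fin n) k)) P *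
          (u : FractionRing (MvPolynomial (Fin n) k))
        rw [hP, mul_right_comm, h2, one_mul]
      rw [h1]
      exact SetLike.coe_mem _
    | algebraMap r =>
      rw [ψ.commutes, IsScalarTower.algebraMap_apply k (MvPolynomial (Fin n) k)]
      exact B.algebraMap_mem _
    | add x y _ _ hx hy =>
      rw [map_add]
      exact add_mem hx hy
    | mul x y _ _ hx hy =>
      rw [map_mul]
      exact mul_mem hx hy
  refine ⟨{ g.comp ((ψ : A →+* FractionRing (MvPolynomial (Fin n) k)).codRestrict B hmem) with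
    commutes' := fun r => ?_ }⟩
  have h1 : ((ψ : A →+* FractionRing (MvPolynomial (Fin n) k)).codRestrict B hmem)
      (algebraMap k A r) = algebraMap (MvPolynomial (Fin n) k) B (C r) := by
    apply Subtype.ext
    show ψ (algebraMap k A r) = _
    rw [ψ.commutes, IsScalarTower.algebraMap_apply k (MvPolynomial (Fin n) k)]
    rfl
  show g _ = _
  rw [h1, hg, eval_C]
  rfl

/-- The rational points of a unirational variety over an infinite field are dense. -/
theorem dense_of_uni {k : Type} [Field k] [Infinite k] (X : Scheme.{0})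
    (p : X ⟶ Spec (CommRingCat.of k)) [IsIntegral X] [LocallyOfFiniteType p] {K : Type} [Field K]
    [Algebra k K] (e : X.functionField ≃+* K)
    (he : ∀ a : k, e (toFF k X p a) = algebraMap k K a) {n : ℕ}
    (φ : K →ₐ[k] FractionRing (MvPolynomial (Fin n) k)) : DensePoints k X p := by
  rw [DensePoints, dense_iff_inter_open]
  rintro W hW ⟨w, hw⟩
  obtain ⟨U, hU, hwU, hUW⟩ := exists_isAffineOpen_mem_and_subset (X := X) (x := w)
    (U := ⟨W, hW⟩) hw
  have hneU : Nonempty U := ⟨⟨w, hwU⟩⟩
  have htop : U ≤ p ⁻¹ᵁ ⊤ := le_top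
  let ι0 : k →+* Γ(X, U) := (p.appLE ⊤ U htop).hom.comp
    (Scheme.ΓSpecIso (CommRingCat.of k)).inv.hom
  let _ : Algebra k Γ(X, U) := ι0.toAlgebra
  have hft : ι0.FiniteType := by
    have h1 : (p.appLE ⊤ U htop).hom.FiniteType :=
      p.finiteType_appLE (isAffineOpen_top _) hU htop
    refine h1.comp (RingHom.FiniteType.of_surjective _ ?_)
    exact (ConcreteCategory.bijective_of_isIso (Scheme.ΓSpecIso (CommRingCat.of k)).inv).2
  have : Algebra.FiniteType k Γ(X, U) := hft
  let ψ0 : Γ(X, U) →+* K := (e : X.functionField →+* K).comp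
    (algebraMap Γ(X, U) X.functionField)
  have hψ0 : ∀ a : k, ψ0 (ι0 a) = algebraMap k K a := by
    intro a
    rw [← he a]
    refine congrArg e ?_
    have hg := (genericPoint_spec X).mem_open_set_iff U.isOpen
    exact X.presheaf.germ_res_apply (homOfLE (le_top : U ≤ ⊤)) (genericPoint X)
      (hg.mpr (by simpa using hneU))
      (p.appTop.hom ((Scheme.ΓSpecIso (CommRingCat.of k)).inv.hom a))
  let ψ : Γ(X, U) →ₐ[k] K := { ψ0 with commutes' := hψ0 }
  obtain ⟨x⟩ := point_of_uni (φ.comp ψ)
  let xc : Γ(X, U) ⟶ CommRingCat.of k := CommRingCat.ofHom (x : Γ(X, U) →+* k)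
  obtain ⟨q⟩ : Nonempty (Spec (CommRingCat.of k)) := inferInstance
  have hs : (Spec.map xc ≫ hU.fromSpec) q ∈ U := by
    have h1 : Set.range hU.fromSpec = (U : Set X) := hU.range_fromSpec
    have h2 : hU.fromSpec (Spec.map xc q) ∈ (U : Set X) := by
      rw [← h1]
      exact ⟨_, rfl⟩
    rwa [Scheme.Hom.comp_apply]
  refine ⟨(Spec.map xc ≫ hU.fromSpec) q, hUW hs, Spec.map xc ≫ hU.fromSpec, ?_, ⟨q, rfl⟩⟩
  rw [Category.assoc, ← IsAffineOpen.SpecMap_appLE_fromSpec p (isAffineOpen_top _) hU htop,
    IsAffineOpen.fromSpec_top, Scheme.isoSpec_Spec_inv, ← Spec.map_comp, ← Spec.map_comp]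
  have h1 : ((Scheme.ΓSpecIso (CommRingCat.of k)).inv ≫ p.appLE ⊤ U htop) ≫ xc = 𝟙 _ := by
    ext a
    exact x.commutes a
  rw [h1, Spec.map_id]

end Pool.Agent.Y742.HC
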