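import Pool.Agent.Y742.HC.Stm3

/-! Project HC: function fields of schemes of finite type are finitely generated. The set-up is
the one of helper780 in `Pool/Agent/Y780/HC/Pts.lean`. -/

set_option autoImplicit false

namespace Pool.Agent.Y742.HC

open AlgebraicGeometry CategoryTheory W560.HP

theorem sFgs : SFgs := by
  intro k _ X p _ _ K _ _ he
  classical
  obtain ⟨e, he⟩ := he
  obtain ⟨_, ⟨U, hU, rfl⟩, hxU, -⟩ :=
    X.isBasis_affineOpens.exists_subset_of_mem_open (Set.mem_univ (genericPoint X)) isOpen_univ
  have : Nonempty U := ⟨⟨_, hxU⟩⟩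
  have := functionField_isFractionRing_of_isAffineOpen X U hU
  have hdom : IsDomain Γ(X, U) := inferInstance
  let φ : k →+* Γ(X, U) := (p.appLE ⊤ U le_top).hom.comp (Scheme.ΓSpecIso (CommRingCat.of k)).inv.hom
  have hφ : (algebraMap Γ(X, U) X.functionField).comp φ = toFF k X p := by
    ext a
    simp only [φ, toFF, RingHom.comp_apply]
    exact X.presheaf.germ_res_apply (homOfLE (le_top : U ≤ ⊤)) (genericPoint X) hxU
      (p.appTop.hom ((Scheme.ΓSpecIso (CommRingCat.of k)).inv.hom a))
  have hft : φ.FiniteType := by
    have h1 : (p.appLE ⊤ U le_top).hom.FiniteType :=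
      p.finiteType_appLE (isAffineOpen_top _) hU le_top
    refine h1.comp ?_
    exact RingHom.FiniteType.of_surjective _
      (Scheme.ΓSpecIso (CommRingCat.of k)).symm.commRingCatIsoToRingEquiv.surjective
  let _ : Algebra k Γ(X, U) := φ.toAlgebra
  obtain ⟨s, hs⟩ := (show Algebra.FiniteType k Γ(X, U) from hft).out
  let j : Γ(X, U) →+* K := (e : X.functionField →+* K).comp (algebraMap Γ(X, U) X.functionField)
  have hj : ∀ a : k, j (φ a) = algebraMap k K a := by
    intro a
    rw [← he a, ← hφ]
    rfl
  refine ⟨s.image j, ?_⟩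
  rw [eq_top_iff]
  rintro z -
  have hmem : ∀ a : Γ(X, U), j a ∈ IntermediateField.adjoin k ((s.image j : Finset K) : Set K) := by
    intro a
    have ha : a ∈ Algebra.adjoin k (s : Set Γ(X, U)) := by
      rw [hs]
      exact Algebra.mem_top
    induction ha using Algebra.adjoin_induction with
    | mem x hx =>
      apply IntermediateField.subset_adjoin
      rw [Finset.coe_image]
      exact ⟨x, hx, rfl⟩
    | algebraMap r =>
      have h1 : j (algebraMap k Γ(X, U) r) = algebraMap k K r := hj r
      rw [h1]
      exact IntermediateField.algebraMap_mem _ _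
    | add x y _ _ hx hy =>
      rw [map_add]
      exact add_mem hx hy
    | mul x y _ _ hx hy =>
      rw [map_mul]
      exact mul_mem hx hy
  obtain ⟨a, b, -, hab⟩ := IsFractionRing.div_surjective (A := Γ(X, U)) (K := X.functionField)
    (e.symm z)
  have hz : z = j a / j b := by
    have h1 := congrArg e hab
    rw [map_div₀, e.apply_symm_apply] at h1
    exact h1.symm
  rw [hz]
  exact div_mem (hmem a) (hmem b)

end Pool.Agent.Y742.HC
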