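import Pool.Agent.Y780.HC.Pts

/-! Project HC: the good `k`-points of a scheme form an open set. The proof is the one of
helper780 (`Pool/Agent/Y780/HC/Pts.lean`), with the open set made explicit. -/

set_option autoImplicit false

namespace Pool.Agent.Y742.HC

open MvPolynomial AlgebraicGeometry CategoryTheory W560.HP

theorem pts_open (k : Type) [Field k] (X : Scheme.{0}) (p : X ⟶ Spec (CommRingCat.of k))
    [IsIntegral X] [LocallyOfFiniteType p] (K : Type) [Field K] [Algebra k K]
    (he : ∃ e : X.functionField ≃+* K, ∀ a : k, e (toFF k X p a) = algebraMap k K a)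
    (N : ℕ) (x : Fin N → K) (G : MvPolynomial (Fin N) k) (hG : aeval x G ≠ 0) :
    ∃ V : X.Opens, genericPoint X ∈ V ∧ ∀ (s : Spec (CommRingCat.of k) ⟶ X), s ≫ p = 𝟙 _ →
      (∃ z ∈ V, z ∈ Set.range s.base) →
      ∃ c : Fin N → k, (∀ P : MvPolynomial (Fin N) k, aeval x P = 0 → eval c P = 0) ∧
        eval c G ≠ 0 := by
  obtain ⟨e, he⟩ := he
  obtain ⟨_, ⟨U, hU, rfl⟩, hxU, -⟩ :=
    X.isBasis_affineOpens.exists_subset_of_mem_open (Set.mem_univ (genericPoint X)) isOpen_univ
  have : Nonempty U := ⟨⟨_, hxU⟩⟩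
  have := functionField_isFractionRing_of_isAffineOpen X U hU
  have hdom : IsDomain Γ(X, U) := inferInstance
  let φ : k →+* Γ(X, U) := (p.appLE ⊤ U le_top).hom.comp (Scheme.ΓSpecIso (CommRingCat.of k)).inv.hom
  have hφ : (algebraMap Γ(X, U) X.functionField).comp φ = toFF k X p := by
    ext a
    simp only [φ, toFF, RingHom.comp_apply]
    exact X.presheaf.germ_res_apply (homOfLE (le_top : U ≤ ⊤)) (genericPoint X) hxU
      (p.appTop.hom ((Scheme.ΓSpecIso (CommRingCat.of k)).inv.hom a))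
  have hkey : ∀ P : MvPolynomial (Fin N) k,
      e (eval₂ ((algebraMap Γ(X, U) X.functionField).comp φ) (fun l => e.symm (x l)) P) =
        aeval x P := by
    intro P
    rw [hφ]
    have h1 := MvPolynomial.hom_eval₂ P (toFF k X p) (e : X.functionField →+* K)
      (fun l => e.symm (x l))
    refine h1.trans ?_
    rw [aeval_def]
    congr 1
    · ext a; exact he a
    · funext l; exact e.apply_symm_apply _
  obtain ⟨b, hb0, hb⟩ := Pool.Agent.Y780.HC.core φ (fun l => e.symm (x l)) G (by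
    intro h
    apply hG
    rw [← hkey, h, map_zero])
  have hgen : genericPoint X ∈ X.basicOpen b := by
    rw [Scheme.mem_basicOpen X b (genericPoint X) hxU]
    refine (isUnit_iff_ne_zero (G₀ := X.functionField)).mpr fun h => hb0 ?_
    exact Scheme.germToFunctionField_injective X U (h.trans (map_zero _).symm)
  refine ⟨X.basicOpen b, hgen, ?_⟩
  rintro s hs ⟨z, hz, w, hw⟩
  have hsub : (⊤ : (Spec (CommRingCat.of k)).Opens) ≤ s ⁻¹ᵁ (X.basicOpen b) := by
    intro v _
    have hvw : v = w := Subsingleton.elim (α := PrimeSpectrum k) v w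
    rw [hvw]
    change s.base w ∈ X.basicOpen b
    exact hw ▸ hz
  have hsubU : (⊤ : (Spec (CommRingCat.of k)).Opens) ≤ s ⁻¹ᵁ U :=
    hsub.trans (s.preimage_mono (X.basicOpen_le b))
  let ev : Γ(X, U) →+* k := (Scheme.ΓSpecIso (CommRingCat.of k)).hom.hom.comp (s.appLE U ⊤ hsubU).hom
  have h1 : ev.comp φ = RingHom.id k := by
    have h2 : (Scheme.ΓSpecIso (CommRingCat.of k)).inv ≫ p.appLE ⊤ U le_top ≫
        s.appLE U ⊤ hsubU ≫ (Scheme.ΓSpecIso (CommRingCat.of k)).hom = 𝟙 _ := by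
      have h7 : ∀ (g : Spec (CommRingCat.of k) ⟶ Spec (CommRingCat.of k)), g = 𝟙 _ →
          ∀ h, g.appLE ⊤ ⊤ h = 𝟙 _ := by
        rintro _ rfl h
        simp [Scheme.Hom.appLE]
      rw [Scheme.Hom.appLE_comp_appLE_assoc, h7 _ hs, Category.id_comp, Iso.inv_hom_id]
    ext a
    exact congrArg (fun g => g.hom a) h2
  have h2 : ev b ≠ 0 := by
    have h3 : IsUnit ((X.presheaf.map (homOfLE (X.basicOpen_le b)).op).hom b) :=
      X.toRingedSpace.isUnit_res_basicOpen b
    have h4 : X.presheaf.map (homOfLE (X.basicOpen_le b)).op ≫ s.appLE (X.basicOpen b) ⊤ hsub =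
        s.appLE U ⊤ hsubU := by
      rw [Scheme.Hom.map_appLE]
    have h5 : ev b = (Scheme.ΓSpecIso (CommRingCat.of k)).hom.hom
        ((s.appLE (X.basicOpen b) ⊤ hsub).hom
          ((X.presheaf.map (homOfLE (X.basicOpen_le b)).op).hom b)) := by
      have h6 := congrArg (fun g => g.hom b) h4
      exact congrArg (Scheme.ΓSpecIso (CommRingCat.of k)).hom.hom h6.symm
    rw [h5]
    exact ((h3.map (s.appLE (X.basicOpen b) ⊤ hsub).hom).map
      (Scheme.ΓSpecIso (CommRingCat.of k)).hom.hom).ne_zero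
  obtain ⟨c, hc1, hc2⟩ := hb ev h1 h2
  refine ⟨c, fun P hP => hc1 P ?_, hc2⟩
  have h1 := hkey P
  rw [hP] at h1
  exact e.injective (h1.trans (map_zero e).symm)

end Pool.Agent.Y742.HC
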