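import Pool.Agent.Y742.HC.Main
import Pool.Agent.Y742.HC.Dense
import Pool.Agent.Y742.HC.Open

/-!
# Unirationality of varieties with conic fibrations without common invariants (helper742)
-/

set_option autoImplicit false

namespace Pool.Agent.Y742.HC

open MvPolynomial AlgebraicGeometry CategoryTheory W560.HP Pool.Agent.TH178.HI

/-- A field generated over an algebraically closed field by finitely many elements has points. -/
theorem exists_pt {k K : Type} [Field k] [IsAlgClosed k] [Field K] [Algebra k K] {N : ℕ}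
    (x : Fin N → K) (G : MvPolynomial (Fin N) k) (hG : aeval x G ≠ 0) :
    ∃ c : Fin N → k, (∀ P : MvPolynomial (Fin N) k, aeval x P = 0 → eval c P = 0) ∧
      eval c G ≠ 0 := by
  classical
  let s : Finset K := insert (aeval x G)⁻¹ (Finset.univ.image x)
  let A : Subalgebra k K := Algebra.adjoin k (s : Set K)
  have hA : Algebra.FiniteType k A := (Subalgebra.fg_iff_finiteType A).1 ⟨s, rfl⟩
  obtain ⟨m, hm⟩ := Ideal.exists_maximal A
  let _ : Field (A ⧸ m) := Ideal.Quotient.field m
  have h1 : Algebra.FiniteType k (A ⧸ m) := inferInstance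
  have h2 : Module.Finite k (A ⧸ m) := finite_of_finite_type_of_isJacobsonRing k (A ⧸ m)
  have h3 : Function.Bijective (algebraMap k (A ⧸ m)) :=
    IsAlgClosed.algebraMap_bijective_of_isIntegral
  let q : A →ₐ[k] k := ((AlgEquiv.ofBijective (Algebra.ofId k (A ⧸ m)) h3).symm :
    (A ⧸ m) →ₐ[k] k).comp (Ideal.Quotient.mkₐ k m)
  have hx : ∀ l, x l ∈ A := fun l => Algebra.subset_adjoin (by simp [s])
  have hG' : (aeval x G)⁻¹ ∈ A := Algebra.subset_adjoin (by simp [s])
  let y : Fin N → A := fun l => ⟨x l, hx l⟩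
  have hy : ∀ P : MvPolynomial (Fin N) k, ((aeval y P : A) : K) = aeval x P := by
    intro P
    have h4 : (A.val.comp (aeval y) : MvPolynomial (Fin N) k →ₐ[k] K) = aeval x := by
      apply MvPolynomial.algHom_ext
      intro l
      simp [y]
    exact DFunLike.congr_fun h4 P
  have hq : ∀ P : MvPolynomial (Fin N) k, eval (fun l => q (y l)) P = q (aeval y P) := by
    intro P
    have h4 : (q.comp (aeval y) : MvPolynomial (Fin N) k →ₐ[k] k) =
        aeval (fun l => q (y l)) := by
      apply MvPolynomial.algHom_ext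
      intro l
      simp
    have h5 := DFunLike.congr_fun h4 P
    rw [AlgHom.comp_apply] at h5
    rw [h5]
    rfl
  refine ⟨fun l => q (y l), fun P hP => ?_, ?_⟩
  · rw [hq]
    have h5 : aeval y P = 0 := Subtype.ext ((hy P).trans hP)
    rw [h5, map_zero]
  · rw [hq]
    intro h0
    have h6 : aeval y G * (⟨(aeval x G)⁻¹, hG'⟩ : A) = 1 := by
      apply Subtype.ext
      show ((aeval y G : A) : K) * (aeval x G)⁻¹ = 1
      rw [hy, mul_inv_cancel₀ hG]
    have h7 := congrArg q h6
    rw [map_mul, h0, zero_mul, map_one] at h7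
    exact zero_ne_one h7

/-- Over an algebraically closed field. -/
theorem closed_main (hCon : SCon) (hStep : SStep) (hEq : SEq) (hPure : SPure) (hHyp : SHyp)
    {k K : Type} [Field k] [CharZero k] [IsAlgClosed k] [Field K] [Algebra k K]
    (hfg : ∃ S : Finset K, IntermediateField.adjoin k (S : Set K) = ⊤) {m : ℕ}
    (L : Fin m → IntermediateField k K) (hL : ∀ i, IsConicOver (L i))
    (hinv : ∀ a : K, (∀ i, IsAlgebraic (L i) a) → a ∈ Set.range (algebraMap k K)) :
    ∃ n : ℕ, Nonempty (K →ₐ[k] FractionRing (MvPolynomial (Fin n) k)) := by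
  obtain ⟨N, x, G, hx2, hG, h⟩ := field_main hCon hStep hEq hPure hHyp hfg L hL hinv
  obtain ⟨c₀, hc₁, hc₂⟩ := exists_pt x G hG
  exact h c₀ hc₁ hc₂

/-- Over any field of characteristic zero. -/
theorem open_main (hCon : SCon) (hStep : SStep) (hEq : SEq) (hPure : SPure) (hHyp : SHyp)
    (k : Type) [Field k] [CharZero k] (K : Type) [Field K]
    [Algebra k K] (X : Scheme.{0}) (p : X ⟶ Spec (CommRingCat.of k)) [IsIntegral X]
    [LocallyOfFiniteType p] (hX : HasFunctionField k X p K) {m : ℕ}
    (L : Fin m → IntermediateField k K)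
    (hL : ∀ i, IsConicOver (L i))
    (hinv : ∀ a : K, (∀ i, IsAlgebraic (L i) a) → a ∈ Set.range (algebraMap k K)) :
    ∃ V : X.Opens, (V : Set X).Nonempty ∧
      [∃ s : Spec (CommRingCat.of k) ⟶ X, s ≫ p = 𝟙 _ ∧ ∃ z ∈ V, z ∈ Set.range s.base,
        DensePoints k X p, UnirationalScheme k X p].TFAE := by
  have hfg := sFgs k X p K hX
  obtain ⟨N, x, G, hx2, hG, h⟩ := field_main hCon hStep hEq hPure hHyp hfg L hL hinv
  obtain ⟨V, hV, hV'⟩ := pts_open k X p K hX N x G hG
  refine ⟨V, ⟨_, hV⟩, ?_⟩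
  tfae_have 1 → 3 := by
    rintro ⟨s, hs, hz⟩
    obtain ⟨c₀, hc₁, hc₂⟩ := hV' s hs hz
    obtain ⟨n, ⟨φ⟩⟩ := h c₀ hc₁ hc₂
    obtain ⟨e, he⟩ := hX
    refine ⟨Fin n, inferInstance, (φ : K →+* _).comp (e : X.functionField →+* K), fun a => ?_⟩
    show φ (e (toFF k X p a)) = _
    rw [he, φ.commutes]
  tfae_have 3 → 2 := by
    rintro ⟨ι, hι, ψ, hψ⟩
    obtain ⟨e, he⟩ := hX
    let φ : K →ₐ[k] FractionRing (MvPolynomial ι k) :=
      { ψ.comp (e.symm : K →+* X.functionField) with
        commutes' := fun a => by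
          show ψ (e.symm (algebraMap k K a)) = _
          rw [← he, e.symm_apply_apply, hψ] }
    let f := Finite.equivFin ι
    let g : MvPolynomial ι k ≃ₐ[k] MvPolynomial (Fin (Nat.card ι)) k := renameEquiv k f
    let g' : FractionRing (MvPolynomial ι k) ≃ₐ[k]
      FractionRing (MvPolynomial (Fin (Nat.card ι)) k) :=
      { IsFractionRing.ringEquivOfRingEquiv g.toRingEquiv with
        commutes' := fun a => by
          show IsFractionRing.ringEquivOfRingEquiv g.toRingEquiv (algebraMap k _ a) = _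
          rw [IsScalarTower.algebraMap_apply k (MvPolynomial ι k),
            IsFractionRing.ringEquivOfRingEquiv_algebraMap]
          show algebraMap _ _ (g (algebraMap k _ a)) = _
          rw [g.commutes, ← IsScalarTower.algebraMap_apply] }
    exact dense_of_uni X p e he (g'.toAlgHom.comp φ)
  tfae_have 2 → 1 := by
    intro hd
    obtain ⟨z, hz, s, hs, hz'⟩ := hd.inter_open_nonempty V V.isOpen ⟨_, hV⟩
    exact ⟨s, hs, z, hz, hz'⟩
  tfae_finish

end Pool.Agent.Y742.HC
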