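import Pool.Agent.Y742.HC.Uni

/-! The chain argument for points over extension fields (helper742). -/

set_option autoImplicit false

namespace Pool.Agent.Y742.HC

open MvPolynomial Pool.Agent.Y742.GG Pool.Agent.W572 Pool.Agent.W572.G

/-- A set of polynomials which is stable under derivatives and contains no nonzero constant is
trivial (as `zero_of_pderiv_closed` of `Pool/Agent/W572/Density.lean`). -/
theorem zero_of_closed {F : Type} [Field F] [CharZero F] {σ : Type} [Finite σ]
    (I : Set (MvPolynomial σ F)) (hx : ∀ a : F, C a ∈ I → a = 0)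
    (hI : ∀ H ∈ I, ∀ l, pderiv l H ∈ I) : ∀ H ∈ I, H = 0 := by
  classical
  have key : ∀ d : ℕ, ∀ H ∈ I, H.totalDegree ≤ d → H = 0 := by
    intro d
    induction d with
    | zero =>
      intro H hH hd
      have h1 : H = C (coeff 0 H) := totalDegree_eq_zero_iff_eq_C.mp (Nat.le_zero.mp hd)
      have h2 := hx (coeff 0 H) (by rw [← h1]; exact hH)
      rw [h1, h2, C_0]
    | succ d ih =>
      intro H hH hd
      have h0 : ∀ l, pderiv l H = 0 := by
        intro l
        apply ih _ (hI H hH l)
        refine Finset.sup_le (fun m hm => ?_)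
        rw [mem_support_iff, coeff_pderiv] at hm
        have h1 : coeff (m + Finsupp.single l 1) H ≠ 0 := left_ne_zero_of_mul hm
        have h2 := (le_totalDegree (mem_support_iff.mpr h1)).trans hd
        rw [Finsupp.sum_add_index' (by simp) (by intros; simp)] at h2
        rw [Finsupp.sum_single_index (by simp)] at h2
        omega
      have h1 : H = C (coeff 0 H) := by
        ext m
        rw [coeff_C]
        split_ifs with hm
        · rw [← hm]
        · have : ∃ l, m l ≠ 0 := by
            by_contra hcon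
            push Not at hcon
            exact hm (Finsupp.ext (fun l => (hcon l).symm))
          obtain ⟨l, hl⟩ := this
          have h2 := congrArg (coeff (m - Finsupp.single l 1)) (h0 l)
          rw [coeff_pderiv, coeff_zero] at h2
          have h3 : m - Finsupp.single l 1 + Finsupp.single l 1 = m := by
            apply tsub_add_cancel_of_le
            rw [Finsupp.single_le_iff]
            omega
          rw [h3] at h2
          rcases mul_eq_zero.mp h2 with h4 | h4
          · exact h4
          · exfalso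
            exact Nat.cast_add_one_ne_zero _ h4
      have h2 := hx (coeff 0 H) (by rw [← h1]; exact hH)
      rw [h1, h2, C_0]
  intro H hH
  exact key _ H hH le_rfl

theorem uniL (hStep : SStep) (hEq : SEq) (hPure : SPure) {k K : Type} [Field k] [CharZero k]
    [Field K] [Algebra k K] {N m : ℕ} {F : MvPolynomial (Fin N) k} (hF : Irreducible F)
    {x : Fin N → K} (hx : ∀ P : MvPolynomial (Fin N) k, aeval x P = 0 ↔ F ∣ P)
    (hx2 : IntermediateField.adjoin k (Set.range x) = ⊤)
    (D : Fin m → Derivation k K K)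
    (hgen : LieSubalgebra.lieSpan k (Derivation k K K) {E | ∃ i, ∃ c : K, E = c • D i} = ⊤)
    (μ : Fin m → Cv k N) (hμ : ∀ i, (μ i).Ok x (D i)) :
    ∃ G : MvPolynomial (Fin N) k, aeval x G ≠ 0 ∧ ∀ (L : Type) [Field L] [Algebra k L]
      (c₀ : Fin N → L),
      (∀ P : MvPolynomial (Fin N) k, aeval x P = 0 → aeval c₀ P = 0) → aeval c₀ G ≠ 0 →
      ∃ n : ℕ, Nonempty (K →ₐ[k] FractionRing (MvPolynomial (Fin n) L)) := by
  classical
  have hfrac : ∀ f : K, ∃ P Q : MvPolynomial (Fin N) k, aeval x Q ≠ 0 ∧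
      f * aeval x Q = aeval x P := by
    intro f
    have hf : f ∈ IntermediateField.adjoin k (Set.range x) := by
      rw [hx2]; trivial
    rw [IntermediateField.mem_adjoin_range_iff] at hf
    obtain ⟨r, s, hrs⟩ := hf
    by_cases hs : aeval x s = 0
    · rw [hs, div_zero] at hrs
      exact ⟨0, 1, by simp, by simp [hrs]⟩
    · exact ⟨r, s, hs, by rw [hrs, div_mul_cancel₀ _ hs]⟩
  obtain ⟨l₀, hl₀⟩ := exists_pderiv_ne hF
  have hst := fun a => GG.stable hfrac hx D hgen
    (fun i => (μ i).den.coeff 0 ^ 2) (fun i l => (μ i).vel l)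
    (fun i => by rw [map_pow]; exact pow_ne_zero _ (hμ i).den0)
    (fun i l => by
      rw [Cv.vel, map_sub, map_mul, map_mul, map_pow, (hμ i).base l]
      linear_combination aeval x ((μ i).den.coeff 0) * (hμ i).der l) l₀ a
  choose h hh hst using hst
  set H := ∏ a, h a with hH
  have hH0 : aeval x H ≠ 0 := by
    rw [hH, map_prod]
    exact Finset.prod_ne_zero_iff.2 fun l _ => hh _
  refine ⟨H * pderiv l₀ F * ∏ i, (μ i).den.coeff 0, ?_, ?_⟩
  · rw [map_mul, map_mul]
    refine mul_ne_zero (mul_ne_zero hH0 ?_)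
      (by rw [map_prod]; exact Finset.prod_ne_zero_iff.2 fun i _ => (hμ i).den0)
    rw [Ne, hx]
    exact not_dvd_pderiv hl₀
  intro L _ _ c₀ hc₀ hr
  rw [map_mul, map_mul] at hr
  have hrH : aeval c₀ H ≠ 0 := left_ne_zero_of_mul (left_ne_zero_of_mul hr)
  have hrl : aeval c₀ (pderiv l₀ F) ≠ 0 := right_ne_zero_of_mul (left_ne_zero_of_mul hr)
  have hrd : ∀ i, aeval c₀ ((μ i).den.coeff 0) ≠ 0 := by
    intro i
    have h1 := right_ne_zero_of_mul hr
    rw [map_prod] at h1
    exact Finset.prod_ne_zero_iff.1 h1 i (Finset.mem_univ i)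
  -- a point of maximal transcendence degree
  let p : ℕ → Prop := fun d => ∃ (E : Type) (_ : Field E) (_ : Algebra k E) (_ : Algebra L E)
    (_ : IsScalarTower k L E), IsRat L E ∧
    ∃ c : Fin N → E, (∀ P : MvPolynomial (Fin N) k, aeval x P = 0 → aeval c P = 0) ∧
      (∀ P : MvPolynomial (Fin N) k, aeval c P = 0 → aeval c₀ P = 0) ∧
      ∃ S : Set (Fin N), AlgebraicIndepOn k c S ∧ S.ncard = d
  have hp0 : p 0 := by
    refine ⟨L, inferInstance, inferInstance, inferInstance, inferInstance,
      ⟨0, Fin.elim0, algebraicIndependent_empty_type, ?_⟩,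
      c₀, hc₀, fun P hP => hP, ∅, ?_, by simp⟩
    · rw [eq_top_iff]
      intro z _
      exact IntermediateField.algebraMap_mem _ z
    · exact algebraicIndependent_empty_type
  have hpd : p (Nat.findGreatest p N) := Nat.findGreatest_spec (Nat.zero_le N) hp0
  obtain ⟨E, _, _, _, _, hE, c, hxc, hcc, S, hS, hSd⟩ := hpd
  have hmax : ∀ (E' : Type) [Field E'] [Algebra k E'] [Algebra L E'] [IsScalarTower k L E'],
      IsRat L E' → ∀ c' : Fin N → E',
      (∀ P : MvPolynomial (Fin N) k, aeval x P = 0 → aeval c' P = 0) →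
      (∀ P : MvPolynomial (Fin N) k, aeval c' P = 0 → aeval c₀ P = 0) →
      ∀ S' : Set (Fin N), AlgebraicIndepOn k c' S' → S'.ncard ≤ S.ncard := by
    intro E' _ _ _ _ hE' c' h1 h2 S' hS'
    rw [hSd]
    refine Nat.le_findGreatest ?_ ⟨E', inferInstance, inferInstance, inferInstance,
      inferInstance, hE', c', h1, h2, S', hS', rfl⟩
    have := Set.ncard_le_card S'
    simpa using this
  have htower : IsScalarTower k L (RatFunc E) := by
    refine IsScalarTower.of_algebraMap_eq fun a => ?_
    rw [IsScalarTower.algebraMap_apply k (Polynomial E) (RatFunc E),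
      IsScalarTower.algebraMap_apply L (Polynomial E) (RatFunc E)]
    congr 1
    rw [IsScalarTower.algebraMap_apply k E (Polynomial E),
      IsScalarTower.algebraMap_apply L E (Polynomial E), ← IsScalarTower.algebraMap_apply k L E]
  set I : Ideal (MvPolynomial (Fin N) k) := RingHom.ker (aeval c : _ →ₐ[k] E) with hI
  have hmem : ∀ g, g ∈ I ↔ aeval c g = 0 := fun g => RingHom.mem_ker
  have hstI : ∀ i, ∀ g ∈ I, ∑ l, pderiv l g * (μ i).vel l ∈ I := by
    intro i g hg
    obtain ⟨h1, h2⟩ := hStep k K N x (D i) (μ i) (hμ i) E c hxc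
      (fun h0 => hrd i (hcc _ h0))
    have h3 : aeval ((μ i).pt c) g = 0 :=
      hEq k E (RatFunc E) N c ((μ i).pt c) (fun g hg => (h2 g hg).1) S hS
        (hmax (RatFunc E) (hPure L E hE).1 _ h1 fun P hP => hcc P (h2 P hP).1) g ((hmem g).1 hg)
    rw [hmem, map_sum]
    have h4 := (h2 g h3).2
    rw [← h4]
    exact Finset.sum_congr rfl fun l _ => map_mul _ _ _
  have hFI : F ∈ I := (hmem F).2 (hxc F ((hx F).2 dvd_rfl))
  have hclosed : ∀ a, ∀ g ∈ I, pderiv l₀ F * pderiv a g - pderiv a F * pderiv l₀ g ∈ I := by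
    intro a g hg
    have h1 := hst a I hFI hstI g hg
    rw [hmem] at h1 ⊢
    rw [map_mul] at h1
    refine (mul_eq_zero.1 h1).resolve_left fun h0 => ?_
    have h2 := hcc _ h0
    apply hrH
    rw [hH, map_prod]
    exact Finset.prod_eq_zero (Finset.mem_univ a) h2
  have hdvd : ∀ Q : MvPolynomial (Fin N) k, aeval c Q = 0 → F ∣ Q := by
    intro Q hQ
    by_contra hFQ
    obtain ⟨G, hG, A', B', hAB⟩ := exists_elim F Q l₀ hF hl₀ hFQ
    apply hG
    refine zero_of_closed {G | aeval c (rename (Subtype.val : {j // j ≠ l₀} → Fin N) G) = 0}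
      (fun a ha => ?_) (fun G hG j => ?_) G ?_
    · have h5 : aeval c (rename (Subtype.val : {j // j ≠ l₀} → Fin N) (C a)) = 0 := ha
      rw [rename_C, aeval_C] at h5
      exact (map_eq_zero_iff _ (algebraMap k E).injective).1 h5
    · have h1 := hclosed j _ ((hmem _).2 hG)
      have h6 : pderiv l₀ (rename (Subtype.val : {j // j ≠ l₀} → Fin N) G) = 0 := by
        refine pderiv_eq_zero_of_notMem_vars ?_
        intro h6
        have h7 := vars_rename (Subtype.val : {j // j ≠ l₀} → Fin N) G h6
        rw [Finset.mem_image] at h7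
        obtain ⟨i, -, hi⟩ := h7
        exact i.2 hi
      rw [h6, mul_zero, sub_zero, hmem, map_mul] at h1
      have h2 := (mul_eq_zero.1 h1).resolve_left fun h0 => hrl (hcc _ h0)
      rw [pderiv_rename Subtype.val_injective] at h2
      exact h2
    · show aeval c (rename Subtype.val G) = 0
      rw [hAB, map_add, map_mul, map_mul, hxc F ((hx F).2 dvd_rfl), hQ]
      ring
  obtain ⟨φ⟩ := embed (c := c) hx2 hxc fun P hP => (hx P).2 (hdvd P hP)
  obtain ⟨n, ⟨ψ⟩⟩ := (hPure L E hE).2
  exact ⟨n, ⟨(ψ.restrictScalars k).comp φ⟩⟩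

end Pool.Agent.Y742.HC
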