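import Pool.Agent.Y742.HC.Moves
import Pool.Agent.Y742.HC.UniL
import Pool.Agent.Y742.HC.DenseL
import Pool.Agent.Y780.HC.PtsL

/-!
# Points over extension fields (helper742; `PtsL` by helper780)
-/

set_option autoImplicit false

namespace Pool.Agent.Y742.HC

open MvPolynomial AlgebraicGeometry CategoryTheory W560.HP
open Pool.Agent.TH178.HI (IsConicOver HasFunctionField)

/-- A field generated by finitely many elements has points over finite extensions. -/
theorem exists_pt_fin {k K : Type} [Field k] [Field K] [Algebra k K] {N : ℕ}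
    (x : Fin N → K) (G : MvPolynomial (Fin N) k) (hG : aeval x G ≠ 0) :
    ∃ (L : Type) (_ : Field L) (_ : Algebra k L) (_ : FiniteDimensional k L) (c : Fin N → L),
      (∀ P : MvPolynomial (Fin N) k, aeval x P = 0 → aeval c P = 0) ∧ aeval c G ≠ 0 := by
  classical
  let s : Finset K := insert (aeval x G)⁻¹ (Finset.univ.image x)
  let A : Subalgebra k K := Algebra.adjoin k (s : Set K)
  have hA : Algebra.FiniteType k A := (Subalgebra.fg_iff_finiteType A).1 ⟨s, rfl⟩
  obtain ⟨m, hm⟩ := Ideal.exists_maximal A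
  let _ : Field (A ⧸ m) := Ideal.Quotient.field m
  have h1 : Algebra.FiniteType k (A ⧸ m) := inferInstance
  have h2 : Module.Finite k (A ⧸ m) := finite_of_finite_type_of_isJacobsonRing k (A ⧸ m)
  let q : A →ₐ[k] (A ⧸ m) := Ideal.Quotient.mkₐ k m
  have hx : ∀ l, x l ∈ A := fun l => Algebra.subset_adjoin (by simp [s])
  have hG' : (aeval x G)⁻¹ ∈ A := Algebra.subset_adjoin (by simp [s])
  let y : Fin N → A := fun l => ⟨x l, hx l⟩
  have hy : ∀ P : MvPolynomial (Fin N) k, ((aeval y P : A) : K) = aeval x P := by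
    intro P
    have h4 : (A.val.comp (aeval y) : MvPolynomial (Fin N) k →ₐ[k] K) = aeval x := by
      apply MvPolynomial.algHom_ext
      intro l
      simp [y]
    exact DFunLike.congr_fun h4 P
  have hq : ∀ P : MvPolynomial (Fin N) k, aeval (fun l => q (y l)) P = q (aeval y P) := by
    intro P
    have h4 : (q.comp (aeval y) : MvPolynomial (Fin N) k →ₐ[k] (A ⧸ m)) =
        aeval (fun l => q (y l)) := by
      apply MvPolynomial.algHom_ext
      intro l
      simp
    have h5 := DFunLike.congr_fun h4 P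
    rw [AlgHom.comp_apply] at h5
    rw [h5]
  refine ⟨A ⧸ m, inferInstance, inferInstance, h2, fun l => q (y l), fun P hP => ?_, ?_⟩
  · rw [hq]
    have h5 : aeval y P = 0 := Subtype.ext ((hy P).trans hP)
    rw [h5, map_zero]
  · rw [hq]
    intro h0
    have h6 : aeval y G * (⟨(aeval x G)⁻¹, hG'⟩ : A) = 1 := by
      apply Subtype.ext
      show ((aeval y G : A) : K) * (aeval x G)⁻¹ = 1
      rw [hy, mul_inv_cancel₀ hG]
    have h7 := congrArg q h6
    rw [map_mul, h0, zero_mul, map_one] at h7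
    exact zero_ne_one h7

/-- rational parametrisations exist as soon as there is a general point, over every extension -/
def GoodL (k K : Type) [Field k] [Field K] [Algebra k K] : Prop :=
  ∃ (N : ℕ) (x : Fin N → K) (G : MvPolynomial (Fin N) k), aeval x G ≠ 0 ∧
    ∀ (L : Type) [Field L] [Algebra k L] (c₀ : Fin N → L),
      (∀ P : MvPolynomial (Fin N) k, aeval x P = 0 → aeval c₀ P = 0) →
      aeval c₀ G ≠ 0 → ∃ n : ℕ, Nonempty (K →ₐ[k] FractionRing (MvPolynomial (Fin n) L))

section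

variable {k K : Type} [Field k] [CharZero k] [Field K] [Algebra k K]

theorem goodL_moves (hfg : ∃ S : Finset K, IntermediateField.adjoin k (S : Set K) = ⊤)
    {m : ℕ} (θ : Fin m → (K →ₐ[k] RatFunc K)) (D : Fin m → Derivation k K K)
    (hθ : ∀ i, IsMove (θ i) (D i))
    (hgen : LieSubalgebra.lieSpan k (Derivation k K K) {E | ∃ i, ∃ c : K, E = c • D i} = ⊤) :
    GoodL k K := by
  obtain ⟨N, F, x, hF, hx, hx2⟩ := Pool.Agent.Y849.HC.sHyp k K hfg
  have hμ := fun i => cv_of_move hx2 (hθ i)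
  choose μ hμ using hμ
  obtain ⟨G, hG, h⟩ := uniL sStep Pool.Agent.Y427.HC.sEq Pool.Agent.Y161.HC.sPure hF hx hx2 D hgen
    μ hμ
  exact ⟨N, x, G, hG, h⟩

theorem goodL_conics (hfg : ∃ S : Finset K, IntermediateField.adjoin k (S : Set K) = ⊤)
    {m : ℕ} (L : Fin m → IntermediateField k K) (hL : ∀ i, IsConicOver (L i))
    (hinv : ∀ a : K, (∀ i, IsAlgebraic (L i) a) → a ∈ Set.range (algebraMap k K)) :
    GoodL k K := by
  obtain ⟨n, y, hy⟩ : ∃ (n : ℕ) (y : Fin n → K), IsTranscendenceBasis k y := by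
    obtain ⟨S, hS⟩ := hfg
    have halg : Algebra.IsAlgebraic (Algebra.adjoin k (S : Set K)) K := by
      rw [← IntermediateField.isAlgebraic_adjoin_iff_top, hS]
      exact ⟨fun a => isAlgebraic_algebraMap (⟨a, trivial⟩ : (⊤ : IntermediateField k K))⟩
    obtain ⟨s, hs, hs'⟩ := exists_isTranscendenceBasis_subset (R := k) (S : Set K)
    have hfin : s.Finite := S.finite_toSet.subset hs
    have : Finite s := hfin
    let e := Finite.equivFin s
    exact ⟨Nat.card s, fun i => (e.symm i : K), hs'.comp_equiv e.symm⟩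
  obtain ⟨N, F, x, hF, hx, hx2⟩ := Pool.Agent.Y849.HC.sHyp k K hfg
  have hD := fun i => sCon k K N x hx2 (L i) (hL i)
  choose D μ hD1 hD2 hμ using hD
  have hspan := CN.sMain k K (Fin m) n y hy L (fun i => curve_conic (hL i)) hinv
  have hgen : LieSubalgebra.lieSpan k (Derivation k K K) {E | ∃ i, ∃ c : K, E = c • D i} = ⊤ := by
    rw [eq_top_iff, ← hspan]
    apply LieSubalgebra.lieSpan_mono
    rintro E ⟨i, hE⟩
    exact ⟨i, hD2 i E hE⟩
  obtain ⟨G, hG, h⟩ := uniL sStep Pool.Agent.Y427.HC.sEq Pool.Agent.Y161.HC.sPure hF hx hx2 D hgen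
    μ hμ
  exact ⟨N, x, G, hG, h⟩

end

/-- `X` has an `L`-point in the open set `V`. -/
def HasPointIn {k : Type} [Field k] (X : Scheme.{0}) (p : X ⟶ Spec (CommRingCat.of k))
    (V : X.Opens) (L : Type) [Field L] [Algebra k L] : Prop :=
  ∃ s : Spec (CommRingCat.of L) ⟶ X,
    s ≫ p = Spec.map (CommRingCat.ofHom (algebraMap k L)) ∧ ∃ z ∈ V, z ∈ Set.range s.base

theorem GoodL.opens {k K : Type} [Field k] [Infinite k] [Field K] [Algebra k K] (h : GoodL k K)
    (X : Scheme.{0}) (p : X ⟶ Spec (CommRingCat.of k)) [IsIntegral X]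
    [LocallyOfFiniteType p] (hX : HasFunctionField k X p K) :
    ∃ V : X.Opens, (V : Set X).Nonempty ∧ ∀ (L : Type) [Field L] [Algebra k L],
      [HasPointIn X p V L, DensePointsOver X p L,
        ∃ n : ℕ, Nonempty (K →ₐ[k] FractionRing (MvPolynomial (Fin n) L))].TFAE := by
  obtain ⟨N, x, G, hG, h⟩ := h
  obtain ⟨V, hV, hV'⟩ := Pool.Agent.Y780.HC.pts_openL k X p K hX N x G hG
  refine ⟨V, ⟨_, hV⟩, fun L _ _ => ?_⟩
  have hinf : Infinite L := Infinite.of_injective _ (algebraMap k L).injective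
  tfae_have 1 → 3 := by
    rintro ⟨s, hs, hz⟩
    obtain ⟨c₀, hc₁, hc₂⟩ := hV' L s hs hz
    exact h L c₀ hc₁ hc₂
  tfae_have 3 → 2 := by
    rintro ⟨n, ⟨φ⟩⟩
    obtain ⟨e, he⟩ := hX
    exact dense_of_uniL X p e he φ
  tfae_have 2 → 1 := by
    intro hd
    obtain ⟨z, hz, s, hs, hz'⟩ := hd.inter_open_nonempty V V.isOpen ⟨_, hV⟩
    exact ⟨s, hs, z, hz, hz'⟩
  tfae_finish

theorem GoodL.potential {k K : Type} [Field k] [Infinite k] [Field K] [Algebra k K]
    (h : GoodL k K) (X : Scheme.{0}) (p : X ⟶ Spec (CommRingCat.of k)) [IsIntegral X]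
    [LocallyOfFiniteType p] (hX : HasFunctionField k X p K) :
    ∃ (L : Type) (_ : Field L) (_ : Algebra k L) (_ : FiniteDimensional k L),
      DensePointsOver X p L := by
  obtain ⟨N, x, G, hG, h⟩ := h
  obtain ⟨L, _, _, hL, c, hc₁, hc₂⟩ := exists_pt_fin x G hG
  obtain ⟨n, ⟨φ⟩⟩ := h L c hc₁ hc₂
  obtain ⟨e, he⟩ := hX
  have hinf : Infinite L := Infinite.of_injective _ (algebraMap k L).injective
  exact ⟨L, inferInstance, inferInstance, hL, dense_of_uniL X p e he φ⟩

end Pool.Agent.Y742.HC
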