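import Pool.Agent.Y742.HC.Stm0

/-! Project HC: first order jets of rational functions (helper742). -/

set_option autoImplicit false

namespace Pool.Agent.Y742.HC

open Polynomial

section jets

variable {K : Type} [Field K]

/-- `F` is regular at `0`, with value `f` and derivative `g`. -/
def Rd (f : K) (F : RatFunc K) (g : K) : Prop := ∃ n d : K[X], d.coeff 0 ≠ 0 ∧
  n.coeff 0 = f * d.coeff 0 ∧ n.coeff 1 - f * d.coeff 1 = d.coeff 0 * g ∧
  F * algebraMap K[X] (RatFunc K) d = algebraMap K[X] (RatFunc K) n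

variable {f f' g g' : K} {F F' : RatFunc K}

theorem Rd.unique (h : Rd f F g) (h' : Rd f' F g') : f = f' ∧ g = g' := by
  obtain ⟨n, d, hd, h0, h1, hF⟩ := h
  obtain ⟨n', d', hd', h0', h1', hF'⟩ := h'
  have hE : n * d' = n' * d := by
    apply IsFractionRing.injective K[X] (RatFunc K)
    rw [map_mul, map_mul, ← hF, ← hF']
    ring
  have c0 : n.coeff 0 * d'.coeff 0 = n'.coeff 0 * d.coeff 0 := by
    rw [← mul_coeff_zero, hE, mul_coeff_zero]
  have c1 : n.coeff 0 * d'.coeff 1 + n.coeff 1 * d'.coeff 0 =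
      n'.coeff 0 * d.coeff 1 + n'.coeff 1 * d.coeff 0 := by
    rw [← mul_coeff_one, hE, mul_coeff_one]
  have e1 : f = f' := by
    have : d.coeff 0 * d'.coeff 0 * (f - f') = 0 := by
      linear_combination c0 - d'.coeff 0 * h0 + d.coeff 0 * h0'
    exact sub_eq_zero.1 ((mul_eq_zero.1 this).resolve_left (mul_ne_zero hd hd'))
  subst e1
  refine ⟨rfl, ?_⟩
  have : d.coeff 0 * d'.coeff 0 * (g - g') = 0 := by
    linear_combination c1 - d'.coeff 0 * h1 + d.coeff 0 * h1' - d'.coeff 1 * h0 + d.coeff 1 * h0'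
  exact sub_eq_zero.1 ((mul_eq_zero.1 this).resolve_left (mul_ne_zero hd hd'))

theorem Rd.add (h : Rd f F g) (h' : Rd f' F' g') : Rd (f + f') (F + F') (g + g') := by
  obtain ⟨n, d, hd, h0, h1, hF⟩ := h
  obtain ⟨n', d', hd', h0', h1', hF'⟩ := h'
  refine ⟨n * d' + n' * d, d * d', ?_, ?_, ?_, ?_⟩
  · rw [mul_coeff_zero]; exact mul_ne_zero hd hd'
  · simp only [coeff_add, mul_coeff_zero]
    linear_combination d'.coeff 0 * h0 + d.coeff 0 * h0'
  · simp only [coeff_add, mul_coeff_zero, mul_coeff_one]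
    linear_combination d'.coeff 1 * h0 + d.coeff 1 * h0' + d'.coeff 0 * h1 + d.coeff 0 * h1'
  · simp only [map_add, map_mul]
    linear_combination algebraMap K[X] (RatFunc K) d' * hF + algebraMap K[X] (RatFunc K) d * hF'

theorem Rd.mul (h : Rd f F g) (h' : Rd f' F' g') : Rd (f * f') (F * F') (f * g' + f' * g) := by
  obtain ⟨n, d, hd, h0, h1, hF⟩ := h
  obtain ⟨n', d', hd', h0', h1', hF'⟩ := h'
  refine ⟨n * n', d * d', ?_, ?_, ?_, ?_⟩
  · rw [mul_coeff_zero]; exact mul_ne_zero hd hd'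
  · simp only [mul_coeff_zero]
    rw [h0, h0']
    ring
  · simp only [mul_coeff_zero, mul_coeff_one]
    linear_combination n'.coeff 1 * h0 + n.coeff 1 * h0' + f * d.coeff 0 * h1' +
      f' * d'.coeff 0 * h1
  · simp only [map_mul]
    rw [← hF, ← hF']
    ring

theorem Rd.inv (hf : f ≠ 0) (h : Rd f F g) : Rd f⁻¹ F⁻¹ (-g / f ^ 2) := by
  obtain ⟨n, d, hd, h0, h1, hF⟩ := h
  have hn : n.coeff 0 ≠ 0 := by rw [h0]; exact mul_ne_zero hf hd
  refine ⟨d, n, hn, ?_, ?_, ?_⟩
  · rw [h0]; field_simp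
  · rw [h0]
    field_simp
    linear_combination -h1
  · have hn0 : algebraMap K[X] (RatFunc K) n ≠ 0 := by
      intro h
      rw [map_eq_zero_iff _ (IsFractionRing.injective K[X] (RatFunc K))] at h
      rw [h, coeff_zero] at hn
      exact hn rfl
    have hF0 : F ≠ 0 := by
      rintro rfl
      rw [zero_mul] at hF
      exact hn0 hF.symm
    rw [← hF, inv_mul_cancel_left₀ hF0]

theorem Rd.const (a : K) : Rd a (algebraMap K[X] (RatFunc K) (C a)) 0 :=
  ⟨C a, 1, by simp, by simp, by simp [coeff_C, coeff_one], by simp⟩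

theorem Rd.zero_iff (h : Rd f 0 g) : f = 0 := by
  have h1 := Rd.const (K := K) 0
  rw [map_zero, map_zero] at h1
  exact (h.unique h1).1

end jets


end Pool.Agent.Y742.HC
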