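import Pool.Agent.Y742.HC.Uni
import Pool.Agent.Y742.HC.Cov
import Pool.Agent.Y742.HC.Fgs
import Pool.Agent.Y742.CN.All
import Pool.Agent.Y328.HC.ConB
import Pool.Agent.Y161.HC.Pure
import Pool.Agent.Y780.HC.Pts
import Pool.Agent.Y500.HC.Unr
import Pool.Agent.W560.HP.Fin2
import Pool.Agent.W376.HP.NRM

/-!
# Varieties with conic fibrations without common invariants (helper742)
-/

set_option autoImplicit false

namespace Pool.Agent.Y742.HC

open MvPolynomial AlgebraicGeometry CategoryTheory W560.HP Pool.Agent.TH178.HI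

/-- A conic over `L` is a curve over `L`. -/
theorem curve_conic {k K : Type} [Field k] [Field K] [Algebra k K] {L : IntermediateField k K}
    (h : IsConic L) : ∃ t : K, Transcendental L t ∧
      ∀ b : K, IsAlgebraic (IntermediateField.adjoin L {t}) b := by
  obtain ⟨A, B, C₀, s, v, hA, hB, hC, -, ht, hv, hg⟩ := h
  refine ⟨s, ht, fun b => ?_⟩
  set F := IntermediateField.adjoin L {s} with hF
  have hsF : s ∈ F := IntermediateField.subset_adjoin _ _ rfl
  have hLF : ∀ a ∈ L, a ∈ F := fun a ha => F.algebraMap_mem (⟨a, ha⟩ : L)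
  have hvF : IsAlgebraic F v := by
    have h2 : IsAlgebraic F (v ^ 2) := by
      rw [hv]
      exact isAlgebraic_algebraMap (⟨_, add_mem (add_mem (mul_mem (hLF _ hA) (pow_mem hsF 2))
        (mul_mem (hLF _ hB) hsF)) (hLF _ hC)⟩ : F)
    exact h2.of_pow (by norm_num)
  have hb : b ∈ IntermediateField.adjoin k ((L : Set K) ∪ {s, v}) := by rw [hg]; trivial
  have hle : IntermediateField.adjoin k ((L : Set K) ∪ {s, v}) ≤
      ((algebraicClosure F K).restrictScalars L).restrictScalars k := by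
    rw [IntermediateField.adjoin_le_iff]
    rintro z (hz | rfl | rfl)
    · exact mem_algebraicClosure_iff.2 (isAlgebraic_algebraMap (⟨_, hLF z hz⟩ : F))
    · exact mem_algebraicClosure_iff.2 (isAlgebraic_algebraMap (⟨_, hsF⟩ : F))
    · exact mem_algebraicClosure_iff.2 hvF
  exact mem_algebraicClosure_iff.1 (hle hb)

/-- The field version. -/
theorem field_main (hCon : SCon) (hStep : SStep) (hEq : SEq) (hPure : SPure) (hHyp : SHyp)
    {k K : Type} [Field k] [CharZero k] [Field K] [Algebra k K]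
    (hfg : ∃ S : Finset K, IntermediateField.adjoin k (S : Set K) = ⊤) {m : ℕ}
    (L : Fin m → IntermediateField k K) (hL : ∀ i, IsConic (L i))
    (hinv : ∀ a : K, (∀ i, IsAlgebraic (L i) a) → a ∈ Set.range (algebraMap k K)) :
    ∃ (N : ℕ) (x : Fin N → K) (G : MvPolynomial (Fin N) k),
      IntermediateField.adjoin k (Set.range x) = ⊤ ∧ aeval x G ≠ 0 ∧
      ∀ c₀ : Fin N → k, (∀ P : MvPolynomial (Fin N) k, aeval x P = 0 → eval c₀ P = 0) →
        eval c₀ G ≠ 0 → ∃ n : ℕ, Nonempty (K →ₐ[k] FractionRing (MvPolynomial (Fin n) k)) := by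
  obtain ⟨n, y, hy⟩ : ∃ (n : ℕ) (y : Fin n → K), IsTranscendenceBasis k y := by
    obtain ⟨S, hS⟩ := hfg
    have halg : Algebra.IsAlgebraic (Algebra.adjoin k (S : Set K)) K := by
      rw [← IntermediateField.isAlgebraic_adjoin_iff_top, hS]
      exact ⟨fun a => isAlgebraic_algebraMap (⟨a, trivial⟩ : (⊤ : IntermediateField k K))⟩
    obtain ⟨s, hs, hs'⟩ := exists_isTranscendenceBasis_subset (R := k) (S : Set K)
    have hfin : s.Finite := S.finite_toSet.subset hs
    have : Finite s := hfin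
    let e := Finite.equivFin s
    exact ⟨Nat.card s, fun i => (e.symm i : K), hs'.comp_equiv e.symm⟩
  obtain ⟨N, F, x, hF, hx, hx2⟩ := hHyp k K hfg
  have hD := fun i => hCon k K N x hx2 (L i) (hL i)
  choose D μ hD1 hD2 hμ using hD
  have hspan := CN.sMain k K (Fin m) n y hy L (fun i => curve_conic (hL i)) hinv
  have hgen : LieSubalgebra.lieSpan k (Derivation k K K) {E | ∃ i, ∃ c : K, E = c • D i} = ⊤ := by
    rw [eq_top_iff, ← hspan]
    apply LieSubalgebra.lieSpan_mono
    rintro E ⟨i, hE⟩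
    exact ⟨i, hD2 i E hE⟩
  obtain ⟨G, hG, h⟩ := uni hStep hEq hPure hF hx hx2 D hgen μ hμ
  exact ⟨N, x, G, hx2, hG, h⟩

/-- `P` is a prime divisor on the integral `k`-scheme `X`, whose function field is identified with
`K` by `e`: the ring of `P` is the local ring of `X` at some point. -/
def PlaceOn (k : Type) [Field k] (X : Scheme.{0}) [IsIntegral X] {K : Type} [Field K] [Algebra k K]
    (e : X.functionField ≃+* K) (P : FF.Place k K) : Prop :=
  ∃ x : X, ∀ f : K, (f = 0 ∨ 0 ≤ P.ord f) ↔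
    ∃ g : X.presheaf.stalk x, e (algebraMap (X.presheaf.stalk x) X.functionField g) = f

/-- `P` is trivial on the subfield `L`: the divisor dominates the base of the fibration. -/
def Horizontal {k K : Type} [Field k] [Field K] [Algebra k K] (L : IntermediateField k K)
    (P : FF.Place k K) : Prop := ∀ a ∈ L, a ≠ 0 → P.ord a = 0

/-- The extension `M / K` is unramified at `P`. -/
def UnramifiedAt {k K : Type} [Field k] [Field K] [Algebra k K] (M : Type) [Field M] [Algebra k M]
    [Algebra K M] (P : FF.Place k K) : Prop :=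
  ∀ (Q : FF.Place k M) (n : ℕ), 0 < n → (∀ f : K, Q.ord (algebraMap K M f) = n * P.ord f) → n = 1

/-- The theorem for schemes. -/
theorem scheme_main (hCon : SCon) (hStep : SStep) (hEq : SEq) (hPure : SPure) (hHyp : SHyp)
    (k : Type) [Field k] [CharZero k]
    (hk : ∃ S : Finset k, IntermediateField.adjoin ℚ (S : Set k) = ⊤) (K : Type) [Field K]
    [Algebra k K] (X : Scheme.{0}) (p : X ⟶ Spec (CommRingCat.of k)) [IsIntegral X]
    [LocallyOfFiniteType p] (e : X.functionField ≃+* K)
    (he : ∀ a : k, e (toFF k X p a) = algebraMap k K a)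
    (hd : DensePoints k X p) {m : ℕ} (L : Fin m → IntermediateField k K)
    (hL : ∀ i, IsConicOver (L i))
    (hinv : ∀ a : K, (∀ i, IsAlgebraic (L i) a) → a ∈ Set.range (algebraMap k K)) :
    (∃ n : ℕ, Nonempty (K →ₐ[k] FractionRing (MvPolynomial (Fin n) k))) ∧
    ((∀ (M : Type) [Field M] [Algebra k M] [Algebra K M] [IsScalarTower k K M]
      [FiniteDimensional K M], (∀ a : M, IsAlgebraic k a → a ∈ Set.range (algebraMap k M)) →
      (∀ i, IntermediateField.adjoin K {z : M | IsAlgebraic (L i) z} = ⊤) →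
      (∀ P : FF.Place k K, (∃ i, Horizontal (L i) P) → UnramifiedAt M P) →
      Function.Surjective (algebraMap K M)) →
      HilbertProperty k X p ∧
      ((∀ x : X, IsIntegrallyClosed (X.presheaf.stalk x)) → HilbertPropertyIso k X p)) ∧
    ((∀ P : FF.Place k K, PlaceOn k X e P → ∃ i, Horizontal (L i) P) →
      (∀ (M : Type) [Field M] [Algebra k M] [Algebra K M] [IsScalarTower k K M]
        [FiniteDimensional K M], (∀ a : M, IsAlgebraic k a → a ∈ Set.range (algebraMap k M)) →
        (∀ P : FF.Place k K, PlaceOn k X e P → UnramifiedAt M P) →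
        Function.Surjective (algebraMap K M)) →
      HilbertProperty k X p ∧
      ((∀ x : X, IsIntegrallyClosed (X.presheaf.stalk x)) → HilbertPropertyIso k X p)) := by
  have hfg := sFgs k X p K ⟨e, he⟩
  obtain ⟨N, x, G, hx2, hG, h⟩ := field_main hCon hStep hEq hPure hHyp hfg L hL hinv
  obtain ⟨c₀, hc₁, hc₂⟩ := Pool.Agent.Y780.HC.sPts k X p K ⟨e, he⟩ hd N x G hG
  obtain ⟨n, ⟨φ⟩⟩ := h c₀ hc₁ hc₂
  obtain ⟨M, _, _, _, _, _, hM1, hM2, hM3⟩ := cov φ L hL
  have hram : ∀ P : FF.Place k K, (∃ i, Horizontal (L i) P) → UnramifiedAt M P := by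
    rintro P ⟨i, hi⟩ Q n hn hQ
    exact Pool.Agent.Y500.HC.sUnr k K M (L i) (hM2 i) P Q n hi ⟨hn, hQ⟩
  have hfin : Function.Surjective (algebraMap K M) → HilbertProperty k X p ∧
      ((∀ x : X, IsIntegrallyClosed (X.presheaf.stalk x)) → HilbertPropertyIso k X p) := by
    intro hs
    have hr : Realizable k K := hM3.equiv
      ((AlgEquiv.ofBijective (IsScalarTower.toAlgHom k K M)
        ⟨(algebraMap K M).injective, hs⟩))
    have h4 : HilbertProperty k X p := hr.hilbert hk X p ⟨e, he⟩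
    exact ⟨h4, fun hn => iso_of_hp Pool.Agent.W376.HP.nrm k X p hn h4⟩
  refine ⟨⟨n, ⟨φ⟩⟩, fun hM => hfin (hM M hM1 hM2 hram), fun hP hM => hfin (hM M hM1 ?_)⟩
  exact fun P hPX => hram P (hP P hPX)

end Pool.Agent.Y742.HC
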