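import Pool.Agent.Y742.HC.All

/-!
# Varieties with rational families of rational curves through their general points (helper742)
-/

set_option autoImplicit false

namespace Pool.Agent.Y742.HC

open MvPolynomial AlgebraicGeometry CategoryTheory W560.HP

section

variable {k K : Type} [Field k] [Field K] [Algebra k K]

/-- `F` in `K(t)` is regular at `t = 0`, its value there is `f` and its derivative is `g`: it is the
quotient of two polynomials `n`, `d` with `d(0) ≠ 0`, `n(0) = f d(0)`, `n'(0) - f d'(0) = g d(0)`. -/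
def HasJet (f : K) (F : RatFunc K) (g : K) : Prop := ∃ n d : Polynomial K, d.coeff 0 ≠ 0 ∧
  n.coeff 0 = f * d.coeff 0 ∧ n.coeff 1 - f * d.coeff 1 = d.coeff 0 * g ∧
  F * algebraMap (Polynomial K) (RatFunc K) d = algebraMap (Polynomial K) (RatFunc K) n

/-- A rational family of rational curves through the general point of the variety with function
field `K`: a homomorphism `θ : K → K(t)` over `k` (a rational map from `X × ℙ¹` to `X`) which is
regular at `t = 0` and the identity there; `D` is the vector field of the tangent vectors at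
`t = 0` of the curves `t ↦ θ(x, t)`. -/
def IsMove (θ : K →ₐ[k] RatFunc K) (D : Derivation k K K) : Prop := ∀ f : K, HasJet f (θ f) (D f)

theorem cv_of_move {N : ℕ} {x : Fin N → K} (hx : IntermediateField.adjoin k (Set.range x) = ⊤)
    {θ : K →ₐ[k] RatFunc K} {D : Derivation k K K} (h : IsMove θ D) :
    ∃ μ : Cv k N, μ.Ok x D := by
  classical
  have hj := fun l => h (x l)
  choose n d hd h0 h1 hF using hj
  have hprod : ∀ l, ∏ j, d j = d l * ∏ j ∈ Finset.univ.erase l, d j := fun l =>
    (Finset.mul_prod_erase Finset.univ d (Finset.mem_univ l)).symm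
  have hdn : (∏ j, d j).coeff 0 ≠ 0 := by
    rw [Polynomial.coeff_zero_eq_eval_zero, Polynomial.eval_prod]
    refine Finset.prod_ne_zero_iff.2 fun l _ => ?_
    rw [← Polynomial.coeff_zero_eq_eval_zero]
    exact hd l
  obtain ⟨b, μ, hb, e1, e2, e3⟩ := Pool.Agent.Y328.HC.exists_cv hx
    (fun l => n l * ∏ j ∈ Finset.univ.erase l, d j) (∏ j, d j)
  refine ⟨μ, ?_, fun l => ?_, fun P hP => ?_, fun l => ?_⟩
  · rw [e2]
    exact mul_ne_zero hb hdn
  · rw [e1, e2, hprod l, Polynomial.mul_coeff_zero, Polynomial.mul_coeff_zero, h0 l]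
    ring
  · have hfun : μ.pt x = fun l => θ (x l) := by
      rw [e3]
      funext l
      have h3 : algebraMap (Polynomial K) (RatFunc K) (∏ j, d j) ≠ 0 := by
        rw [Ne, map_eq_zero_iff _ (IsFractionRing.injective (Polynomial K) (RatFunc K))]
        intro h4
        rw [h4, Polynomial.coeff_zero] at hdn
        exact hdn rfl
      rw [div_eq_iff h3, hprod l, map_mul, map_mul, ← hF l]
      ring
    rw [hfun]
    have h3 : ((aeval fun l => θ (x l)) : MvPolynomial (Fin N) k →ₐ[k] RatFunc K) =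
        θ.comp (aeval x) := by
      apply MvPolynomial.algHom_ext
      intro l
      simp
    rw [h3, AlgHom.comp_apply, hP, map_zero]
  · rw [e1, e2, e2, hprod l, Polynomial.mul_coeff_one, Polynomial.mul_coeff_one,
      Polynomial.mul_coeff_zero]
    linear_combination b * (∏ j ∈ Finset.univ.erase l, d j).coeff 1 * h0 l +
      b * (∏ j ∈ Finset.univ.erase l, d j).coeff 0 * h1 l

/-- unirational as soon as there is a general rational point -/
def Good (k K : Type) [Field k] [Field K] [Algebra k K] : Prop :=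
  ∃ (N : ℕ) (x : Fin N → K) (G : MvPolynomial (Fin N) k), aeval x G ≠ 0 ∧
    ∀ c₀ : Fin N → k, (∀ P : MvPolynomial (Fin N) k, aeval x P = 0 → eval c₀ P = 0) →
      eval c₀ G ≠ 0 → ∃ n : ℕ, Nonempty (K →ₐ[k] FractionRing (MvPolynomial (Fin n) k))

theorem good_moves [CharZero k] (hfg : ∃ S : Finset K, IntermediateField.adjoin k (S : Set K) = ⊤)
    {m : ℕ} (θ : Fin m → (K →ₐ[k] RatFunc K)) (D : Fin m → Derivation k K K)
    (hθ : ∀ i, IsMove (θ i) (D i))
    (hgen : LieSubalgebra.lieSpan k (Derivation k K K) {E | ∃ i, ∃ c : K, E = c • D i} = ⊤) :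
    Good k K := by
  obtain ⟨N, F, x, hF, hx, hx2⟩ := Pool.Agent.Y849.HC.sHyp k K hfg
  have hμ := fun i => cv_of_move hx2 (hθ i)
  choose μ hμ using hμ
  obtain ⟨G, hG, h⟩ := uni sStep Pool.Agent.Y427.HC.sEq Pool.Agent.Y161.HC.sPure hF hx hx2 D hgen
    μ hμ
  exact ⟨N, x, G, hG, h⟩

theorem Good.closed [IsAlgClosed k] (h : Good k K) :
    ∃ n : ℕ, Nonempty (K →ₐ[k] FractionRing (MvPolynomial (Fin n) k)) := by
  obtain ⟨N, x, G, hG, h⟩ := h
  obtain ⟨c₀, hc₁, hc₂⟩ := exists_pt x G hG
  exact h c₀ hc₁ hc₂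

end

theorem Good.opens {k K : Type} [Field k] [Infinite k] [Field K] [Algebra k K] (h : Good k K)
    (X : Scheme.{0}) (p : X ⟶ Spec (CommRingCat.of k)) [IsIntegral X]
    [LocallyOfFiniteType p] (hX : Pool.Agent.TH178.HI.HasFunctionField k X p K) :
    ∃ V : X.Opens, (V : Set X).Nonempty ∧
      [∃ s : Spec (CommRingCat.of k) ⟶ X, s ≫ p = 𝟙 _ ∧ ∃ z ∈ V, z ∈ Set.range s.base,
        DensePoints k X p, UnirationalScheme k X p].TFAE := by
  obtain ⟨N, x, G, hG, h⟩ := h
  obtain ⟨V, hV, hV'⟩ := pts_open k X p K hX N x G hG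
  refine ⟨V, ⟨_, hV⟩, ?_⟩
  tfae_have 1 → 3 := by
    rintro ⟨s, hs, hz⟩
    obtain ⟨c₀, hc₁, hc₂⟩ := hV' s hs hz
    obtain ⟨n, ⟨φ⟩⟩ := h c₀ hc₁ hc₂
    obtain ⟨e, he⟩ := hX
    refine ⟨Fin n, inferInstance, (φ : K →+* _).comp (e : X.functionField →+* K), fun a => ?_⟩
    show φ (e (toFF k X p a)) = _
    rw [he, φ.commutes]
  tfae_have 3 → 2 := by
    rintro ⟨ι, hι, ψ, hψ⟩
    obtain ⟨e, he⟩ := hX
    let φ : K →ₐ[k] FractionRing (MvPolynomial ι k) :=
      { ψ.comp (e.symm : K →+* X.functionField) with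
        commutes' := fun a => by
          show ψ (e.symm (algebraMap k K a)) = _
          rw [← he, e.symm_apply_apply, hψ] }
    let f := Finite.equivFin ι
    let g : MvPolynomial ι k ≃ₐ[k] MvPolynomial (Fin (Nat.card ι)) k := renameEquiv k f
    let g' : FractionRing (MvPolynomial ι k) ≃ₐ[k]
      FractionRing (MvPolynomial (Fin (Nat.card ι)) k) :=
      { IsFractionRing.ringEquivOfRingEquiv g.toRingEquiv with
        commutes' := fun a => by
          show IsFractionRing.ringEquivOfRingEquiv g.toRingEquiv (algebraMap k _ a) = _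
          rw [IsScalarTower.algebraMap_apply k (MvPolynomial ι k),
            IsFractionRing.ringEquivOfRingEquiv_algebraMap]
          show algebraMap _ _ (g (algebraMap k _ a)) = _
          rw [g.commutes, ← IsScalarTower.algebraMap_apply] }
    exact dense_of_uni X p e he (g'.toAlgHom.comp φ)
  tfae_have 2 → 1 := by
    intro hd
    obtain ⟨z, hz, s, hs, hz'⟩ := hd.inter_open_nonempty V V.isOpen ⟨_, hV⟩
    exact ⟨s, hs, z, hz, hz'⟩
  tfae_finish

end Pool.Agent.Y742.HC
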