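import Pool.Agent.Y742.HC.Stm0
import Pool.Agent.W560.HP.Stm2
import Pool.Agent.Helper386.D5V.Helper399_OverDefs

/-! Statements of project HC: schemes and places. -/

set_option autoImplicit false

namespace Pool.Agent.Y742.HC

open MvPolynomial AlgebraicGeometry CategoryTheory W560.HP

/-- The `k`-points of `X` are dense. -/
def DensePoints (k : Type) [Field k] (X : Scheme.{0}) (f : X ⟶ Spec (CommRingCat.of k)) : Prop :=
  Dense {x : X | ∃ s : Spec (CommRingCat.of k) ⟶ X, s ≫ f = 𝟙 _ ∧ x ∈ Set.range s.base}

/-- PTS: a scheme with dense `k`-points has `k`-points in every model of its function field. -/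
def SPts : Prop := ∀ (k : Type) [Field k] (X : Scheme.{0}) (p : X ⟶ Spec (CommRingCat.of k))
    [IsIntegral X] [LocallyOfFiniteType p] (K : Type) [Field K] [Algebra k K],
    (∃ e : X.functionField ≃+* K, ∀ a : k, e (toFF k X p a) = algebraMap k K a) →
    DensePoints k X p →
    ∀ (N : ℕ) (x : Fin N → K) (G : MvPolynomial (Fin N) k), aeval x G ≠ 0 →
    ∃ c : Fin N → k, (∀ P : MvPolynomial (Fin N) k, aeval x P = 0 → eval c P = 0) ∧ eval c G ≠ 0

/-- UNR: an extension which is pulled back from `L` is unramified at the places which are trivial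
on `L`. -/
def SUnr : Prop := ∀ (k K M : Type) [Field k] [CharZero k] [Field K] [Field M] [Algebra k K]
    [Algebra K M] [Algebra k M] [IsScalarTower k K M] [FiniteDimensional K M]
    (L : IntermediateField k K),
    IntermediateField.adjoin K {z : M | IsAlgebraic L z} = ⊤ →
    ∀ (P : FF.Place k K) (Q : FF.Place k M) (e : ℕ), (∀ a ∈ L, a ≠ 0 → P.ord a = 0) →
      FF.Over Q P e → e = 1

end Pool.Agent.Y742.HC
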