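import Mathlib

/-! Statements of project HC, light part (Mathlib only): varieties with conic fibrations without
common invariants. -/

set_option autoImplicit false

namespace Pool.Agent.Y742.HC

open MvPolynomial

/-- A rational family of curves through the points of a variety: the coordinates of the curve
through the point `x` are `num l (x, e) / den (x, e)`, with parameter `e`. -/
structure Cv (k : Type) [Field k] (N : ℕ) where
  num : Fin N → Polynomial (MvPolynomial (Fin N) k)
  den : Polynomial (MvPolynomial (Fin N) k)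

section

variable {k : Type} [Field k] {N : ℕ}

/-- The generic point of the curve of the family through the point `c` over `E`. -/
noncomputable def Cv.pt (μ : Cv k N) {E : Type} [Field E] [Algebra k E] (c : Fin N → E) :
    Fin N → RatFunc E :=
  fun l => algebraMap (Polynomial E) (RatFunc E)
      ((μ.num l).map (aeval c : MvPolynomial (Fin N) k →ₐ[k] E).toRingHom) /
    algebraMap (Polynomial E) (RatFunc E)
      (μ.den.map (aeval c : MvPolynomial (Fin N) k →ₐ[k] E).toRingHom)

/-- The velocity at `e = 0`, multiplied by the square of the denominator. -/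
noncomputable def Cv.vel (μ : Cv k N) (l : Fin N) : MvPolynomial (Fin N) k :=
  μ.den.coeff 0 * (μ.num l).coeff 1 - (μ.num l).coeff 0 * μ.den.coeff 1

/-- The family is regular at the generic point `x` of the variety, the curves lie in the variety,
and their tangent vectors are given by the derivation `D`. -/
structure Cv.Ok {K : Type} [Field K] [Algebra k K] (μ : Cv k N) (x : Fin N → K)
    (D : Derivation k K K) : Prop where
  den0 : aeval x (μ.den.coeff 0) ≠ 0
  base : ∀ l, aeval x ((μ.num l).coeff 0) = x l * aeval x (μ.den.coeff 0)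
  maps : ∀ P : MvPolynomial (Fin N) k, aeval x P = 0 → aeval (μ.pt x) P = 0
  der : ∀ l, aeval x ((μ.num l).coeff 1) - x l * aeval x (μ.den.coeff 1) =
    aeval x (μ.den.coeff 0) * D (x l)

end

/-- `K` is the function field of a smooth conic over its subfield `L` (same text as
`Pool.Agent.TH178.HI.IsConicOver`). -/
def IsConic {k K : Type} [Field k] [Field K] [Algebra k K] (L : IntermediateField k K) : Prop :=
  ∃ A B C₀ s v : K, A ∈ L ∧ B ∈ L ∧ C₀ ∈ L ∧ B ^ 2 - 4 * A * C₀ ≠ 0 ∧ Transcendental L s ∧
    v ^ 2 = A * s ^ 2 + B * s + C₀ ∧ IntermediateField.adjoin k ((L : Set K) ∪ {s, v}) = ⊤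

/-- CON: a conic fibration gives a family of curves. -/
def SCon : Prop := ∀ (k K : Type) [Field k] [CharZero k] [Field K] [Algebra k K] (N : ℕ)
    (x : Fin N → K), IntermediateField.adjoin k (Set.range x) = ⊤ →
    ∀ L : IntermediateField k K, IsConic L → ∃ (D : Derivation k K K) (μ : Cv k N),
      (∀ a ∈ L, D a = 0) ∧ (∀ E : Derivation k K K, (∀ a ∈ L, E a = 0) → ∃ c : K, E = c • D) ∧
      μ.Ok x D

/-- STEP: moving a point along the family. -/
def SStep : Prop := ∀ (k K : Type) [Field k] [CharZero k] [Field K] [Algebra k K] (N : ℕ)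
    (x : Fin N → K) (D : Derivation k K K) (μ : Cv k N), μ.Ok x D →
    ∀ (E : Type) [Field E] [Algebra k E] (c : Fin N → E),
    (∀ P : MvPolynomial (Fin N) k, aeval x P = 0 → aeval c P = 0) →
    aeval c (μ.den.coeff 0) ≠ 0 →
    (∀ P : MvPolynomial (Fin N) k, aeval x P = 0 → aeval (μ.pt c) P = 0) ∧
    ∀ g : MvPolynomial (Fin N) k, aeval (μ.pt c) g = 0 →
      aeval c g = 0 ∧ ∑ l, aeval c (pderiv l g) * aeval c (μ.vel l) = 0

/-- EQ: a specialization of the same dimension has the same ideal. -/
def SEq : Prop := ∀ (k E E' : Type) [Field k] [Field E] [Algebra k E] [Field E'] [Algebra k E']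
    (N : ℕ) (c : Fin N → E) (c' : Fin N → E'),
    (∀ g : MvPolynomial (Fin N) k, aeval c' g = 0 → aeval c g = 0) →
    ∀ S : Set (Fin N), AlgebraicIndepOn k c S →
    (∀ S' : Set (Fin N), AlgebraicIndepOn k c' S' → S'.ncard ≤ S.ncard) →
    ∀ g : MvPolynomial (Fin N) k, aeval c g = 0 → aeval c' g = 0

/-- `E` is a field of rational functions over `k`. -/
def IsRat (k E : Type) [Field k] [Field E] [Algebra k E] : Prop :=
  ∃ (n : ℕ) (t : Fin n → E), AlgebraicIndependent k t ∧
    IntermediateField.adjoin k (Set.range t) = ⊤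

/-- PURE -/
def SPure : Prop := ∀ (k E : Type) [Field k] [Field E] [Algebra k E], IsRat k E →
    IsRat k (RatFunc E) ∧ ∃ n : ℕ, Nonempty (E →ₐ[k] FractionRing (MvPolynomial (Fin n) k))

/-- HYP: finitely generated fields are function fields of hypersurfaces. -/
def SHyp : Prop := ∀ (k K : Type) [Field k] [CharZero k] [Field K] [Algebra k K],
    (∃ S : Finset K, IntermediateField.adjoin k (S : Set K) = ⊤) →
    ∃ (N : ℕ) (F : MvPolynomial (Fin N) k) (x : Fin N → K), Irreducible F ∧
      (∀ P : MvPolynomial (Fin N) k, aeval x P = 0 ↔ F ∣ P) ∧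
      IntermediateField.adjoin k (Set.range x) = ⊤

end Pool.Agent.Y742.HC
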