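import Pool.Agent.Y742.HC.Stm0

/-! Project HC: the family of curves of a conic fibration, over the function field. -/

set_option autoImplicit false

namespace Pool.Agent.Y742.HC

open MvPolynomial

/-- CONA: a conic fibration gives a family of curves, over the function field. -/
def SConA : Prop := ∀ (k K : Type) [Field k] [CharZero k] [Field K] [Algebra k K] (N : ℕ)
    (x : Fin N → K) (L : IntermediateField k K), IsConic L → ∃ D : Derivation k K K,
      (∀ a ∈ L, D a = 0) ∧ (∀ E : Derivation k K K, (∀ a ∈ L, E a = 0) → ∃ c : K, E = c • D) ∧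
      ∃ (nm : Fin N → Polynomial K) (dn : Polynomial K), dn.coeff 0 ≠ 0 ∧
        (∀ l, (nm l).coeff 0 = x l * dn.coeff 0) ∧
        (∀ P : MvPolynomial (Fin N) k, aeval x P = 0 →
          aeval (fun l => algebraMap (Polynomial K) (RatFunc K) (nm l) /
            algebraMap (Polynomial K) (RatFunc K) dn) P = 0) ∧
        ∀ l, (nm l).coeff 1 - x l * dn.coeff 1 = dn.coeff 0 * D (x l)

/-- CONB -/
def SConB : Prop := SConA → SCon

end Pool.Agent.Y742.HC
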