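import Pool.Agent.W560.HP.Stm2

/-! Project HC: function fields of schemes of finite type are finitely generated. -/

set_option autoImplicit false

namespace Pool.Agent.Y742.HC

open AlgebraicGeometry CategoryTheory W560.HP

/-- FGS -/
def SFgs : Prop := ∀ (k : Type) [Field k] (X : Scheme.{0}) (p : X ⟶ Spec (CommRingCat.of k))
    [IsIntegral X] [LocallyOfFiniteType p] (K : Type) [Field K] [Algebra k K],
    (∃ e : X.functionField ≃+* K, ∀ a : k, e (toFF k X p a) = algebraMap k K a) →
    ∃ S : Finset K, IntermediateField.adjoin k (S : Set K) = ⊤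

end Pool.Agent.Y742.HC
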