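import Pool.Agent.Y742.HC.Stm0
import Pool.Agent.Y742.GG.Stab
import Pool.Agent.Y742.GG.Asm
import Pool.Agent.Y742.GG.Pad
import Pool.Agent.W572.G.Elim

/-! The chain argument: varieties with families of rational curves whose tangent vector fields
generate the derivations are unirational if they have a general rational point (helper742). -/

set_option autoImplicit false

namespace Pool.Agent.Y742.HC

open MvPolynomial Pool.Agent.Y742.GG Pool.Agent.W572 Pool.Agent.W572.G

/-- A point of a variety with the ideal of the generic point gives an embedding. -/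
theorem embed {k K E : Type} [Field k] [Field K] [Algebra k K] [Field E] [Algebra k E] {N : ℕ}
    {x : Fin N → K} (hx2 : IntermediateField.adjoin k (Set.range x) = ⊤) {c : Fin N → E}
    (h1 : ∀ P : MvPolynomial (Fin N) k, aeval x P = 0 → aeval c P = 0)
    (h2 : ∀ P : MvPolynomial (Fin N) k, aeval c P = 0 → aeval x P = 0) :
    Nonempty (K →ₐ[k] E) := by
  have hfrac : ∀ f : K, ∃ P Q : MvPolynomial (Fin N) k, aeval x Q ≠ 0 ∧
      f * aeval x Q = aeval x P := by
    intro f
    have hf : f ∈ IntermediateField.adjoin k (Set.range x) := by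
      rw [hx2]; trivial
    rw [IntermediateField.mem_adjoin_range_iff] at hf
    obtain ⟨r, s, hrs⟩ := hf
    by_cases hs : aeval x s = 0
    · rw [hs, div_zero] at hrs
      exact ⟨0, 1, by simp, by simp [hrs]⟩
    · exact ⟨r, s, hs, by rw [hrs, div_mul_cancel₀ _ hs]⟩
  choose Pf Qf hQf hPf using hfrac
  have hQc : ∀ Q : MvPolynomial (Fin N) k, aeval x Q ≠ 0 → aeval c Q ≠ 0 :=
    fun Q hQ h => hQ (h2 Q h)
  have key : ∀ (f : K) (P Q : MvPolynomial (Fin N) k), aeval x Q ≠ 0 →
      f * aeval x Q = aeval x P → aeval c (Pf f) / aeval c (Qf f) = aeval c P / aeval c Q := by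
    intro f P Q hQ hf
    rw [div_eq_div_iff (hQc _ (hQf f)) (hQc _ hQ), ← map_mul, ← map_mul, ← sub_eq_zero, ← map_sub]
    apply h1
    rw [map_sub, map_mul, map_mul, ← hPf, ← hf]
    ring
  refine ⟨{ toFun := fun f => aeval c (Pf f) / aeval c (Qf f), map_one' := ?_, map_mul' := ?_, map_zero' := ?_, map_add' := ?_, commutes' := ?_ }⟩
  · rw [key 1 1 1 (by simp) (by simp)]
    simp
  · intro f g
    rw [key (f * g) (Pf f * Pf g) (Qf f * Qf g) (by
      rw [map_mul]; exact mul_ne_zero (hQf f) (hQf g)) (by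
      rw [map_mul, map_mul, ← hPf, ← hPf]; ring), map_mul, map_mul, mul_div_mul_comm]
  · show aeval c (Pf 0) / aeval c (Qf 0) = 0
    rw [key 0 0 1 (by simp) (by simp)]
    simp
  · intro f g
    show aeval c (Pf (f + g)) / aeval c (Qf (f + g)) =
      aeval c (Pf f) / aeval c (Qf f) + aeval c (Pf g) / aeval c (Qf g)
    rw [key (f + g) (Pf f * Qf g + Pf g * Qf f) (Qf f * Qf g) (by
      rw [map_mul]; exact mul_ne_zero (hQf f) (hQf g)) (by
      rw [map_mul, map_add, map_mul, map_mul, ← hPf, ← hPf]; ring), map_add, map_mul, map_mul,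
      map_mul, div_add_div _ _ (hQc _ (hQf f)) (hQc _ (hQf g))]
    ring
  · intro a
    show aeval c (Pf _) / aeval c (Qf _) = _
    rw [key _ (C a) 1 (by simp) (by simp)]
    simp

theorem uni (hStep : SStep) (hEq : SEq) (hPure : SPure) {k K : Type} [Field k] [CharZero k]
    [Field K] [Algebra k K] {N m : ℕ} {F : MvPolynomial (Fin N) k} (hF : Irreducible F)
    {x : Fin N → K} (hx : ∀ P : MvPolynomial (Fin N) k, aeval x P = 0 ↔ F ∣ P)
    (hx2 : IntermediateField.adjoin k (Set.range x) = ⊤)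
    (D : Fin m → Derivation k K K)
    (hgen : LieSubalgebra.lieSpan k (Derivation k K K) {E | ∃ i, ∃ c : K, E = c • D i} = ⊤)
    (μ : Fin m → Cv k N) (hμ : ∀ i, (μ i).Ok x (D i)) :
    ∃ G : MvPolynomial (Fin N) k, aeval x G ≠ 0 ∧ ∀ c₀ : Fin N → k,
      (∀ P : MvPolynomial (Fin N) k, aeval x P = 0 → eval c₀ P = 0) → eval c₀ G ≠ 0 →
      ∃ n : ℕ, Nonempty (K →ₐ[k] FractionRing (MvPolynomial (Fin n) k)) := by
  classical
  have hfrac : ∀ f : K, ∃ P Q : MvPolynomial (Fin N) k, aeval x Q ≠ 0 ∧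
      f * aeval x Q = aeval x P := by
    intro f
    have hf : f ∈ IntermediateField.adjoin k (Set.range x) := by
      rw [hx2]; trivial
    rw [IntermediateField.mem_adjoin_range_iff] at hf
    obtain ⟨r, s, hrs⟩ := hf
    by_cases hs : aeval x s = 0
    · rw [hs, div_zero] at hrs
      exact ⟨0, 1, by simp, by simp [hrs]⟩
    · exact ⟨r, s, hs, by rw [hrs, div_mul_cancel₀ _ hs]⟩
  obtain ⟨l₀, hl₀⟩ := exists_pderiv_ne hF
  have hst := fun a => GG.stable hfrac hx D hgen
    (fun i => (μ i).den.coeff 0 ^ 2) (fun i l => (μ i).vel l)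
    (fun i => by rw [map_pow]; exact pow_ne_zero _ (hμ i).den0)
    (fun i l => by
      rw [Cv.vel, map_sub, map_mul, map_mul, map_pow, (hμ i).base l]
      linear_combination aeval x ((μ i).den.coeff 0) * (hμ i).der l) l₀ a
  choose h hh hst using hst
  set H := ∏ a, h a with hH
  have hH0 : aeval x H ≠ 0 := by
    rw [hH, map_prod]
    exact Finset.prod_ne_zero_iff.2 fun l _ => hh _
  refine ⟨H * pderiv l₀ F * ∏ i, (μ i).den.coeff 0, ?_, ?_⟩
  · rw [map_mul, map_mul]
    refine mul_ne_zero (mul_ne_zero hH0 ?_)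
      (by rw [map_prod]; exact Finset.prod_ne_zero_iff.2 fun i _ => (hμ i).den0)
    rw [Ne, hx]
    exact not_dvd_pderiv hl₀
  intro c₀ hc₀ hr
  rw [map_mul, map_mul] at hr
  have hrH : eval c₀ H ≠ 0 := left_ne_zero_of_mul (left_ne_zero_of_mul hr)
  have hrl : eval c₀ (pderiv l₀ F) ≠ 0 := right_ne_zero_of_mul (left_ne_zero_of_mul hr)
  have hrd : ∀ i, eval c₀ ((μ i).den.coeff 0) ≠ 0 := by
    intro i
    have h1 := right_ne_zero_of_mul hr
    rw [map_prod] at h1
    exact Finset.prod_ne_zero_iff.1 h1 i (Finset.mem_univ i)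
  -- a point of maximal transcendence degree
  let p : ℕ → Prop := fun d => ∃ (E : Type) (_ : Field E) (_ : Algebra k E), IsRat k E ∧
    ∃ c : Fin N → E, (∀ P : MvPolynomial (Fin N) k, aeval x P = 0 → aeval c P = 0) ∧
      (∀ P : MvPolynomial (Fin N) k, aeval c P = 0 → eval c₀ P = 0) ∧
      ∃ S : Set (Fin N), AlgebraicIndepOn k c S ∧ S.ncard = d
  have hp0 : p 0 := by
    refine ⟨k, inferInstance, inferInstance, ⟨0, Fin.elim0, algebraicIndependent_empty_type, ?_⟩,
      c₀, fun P hP => ?_, fun P hP => ?_, ∅, ?_, by simp⟩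
    · rw [eq_top_iff]
      intro z _
      exact IntermediateField.algebraMap_mem _ z
    · rw [aeval_def, Algebra.algebraMap_self, eval₂_id]; exact hc₀ P hP
    · rw [aeval_def, Algebra.algebraMap_self, eval₂_id] at hP; exact hP
    · exact algebraicIndependent_empty_type
  have hpd : p (Nat.findGreatest p N) := Nat.findGreatest_spec (Nat.zero_le N) hp0
  obtain ⟨E, _, _, hE, c, hxc, hcc, S, hS, hSd⟩ := hpd
  have hmax : ∀ (E' : Type) [Field E'] [Algebra k E'], IsRat k E' → ∀ c' : Fin N → E',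
      (∀ P : MvPolynomial (Fin N) k, aeval x P = 0 → aeval c' P = 0) →
      (∀ P : MvPolynomial (Fin N) k, aeval c' P = 0 → eval c₀ P = 0) →
      ∀ S' : Set (Fin N), AlgebraicIndepOn k c' S' → S'.ncard ≤ S.ncard := by
    intro E' _ _ hE' c' h1 h2 S' hS'
    rw [hSd]
    refine Nat.le_findGreatest ?_ ⟨E', inferInstance, inferInstance, hE', c', h1, h2, S', hS', rfl⟩
    have := Set.ncard_le_card S'
    simpa using this
  set I : Ideal (MvPolynomial (Fin N) k) := RingHom.ker (aeval c : _ →ₐ[k] E) with hI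
  have hmem : ∀ g, g ∈ I ↔ aeval c g = 0 := fun g => RingHom.mem_ker
  have hstI : ∀ i, ∀ g ∈ I, ∑ l, pderiv l g * (μ i).vel l ∈ I := by
    intro i g hg
    obtain ⟨h1, h2⟩ := hStep k K N x (D i) (μ i) (hμ i) E c hxc
      (fun h0 => hrd i (hcc _ h0))
    have h3 : aeval ((μ i).pt c) g = 0 :=
      hEq k E (RatFunc E) N c ((μ i).pt c) (fun g hg => (h2 g hg).1) S hS
        (hmax (RatFunc E) (hPure k E hE).1 _ h1 fun P hP => hcc P (h2 P hP).1) g ((hmem g).1 hg)
    rw [hmem, map_sum]
    have h4 := (h2 g h3).2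
    rw [← h4]
    exact Finset.sum_congr rfl fun l _ => map_mul _ _ _
  have hFI : F ∈ I := (hmem F).2 (hxc F ((hx F).2 dvd_rfl))
  have hclosed : ∀ a, ∀ g ∈ I, pderiv l₀ F * pderiv a g - pderiv a F * pderiv l₀ g ∈ I := by
    intro a g hg
    have h1 := hst a I hFI hstI g hg
    rw [hmem] at h1 ⊢
    rw [map_mul] at h1
    refine (mul_eq_zero.1 h1).resolve_left fun h0 => ?_
    have h2 := hcc _ h0
    apply hrH
    rw [hH, map_prod]
    exact Finset.prod_eq_zero (Finset.mem_univ a) h2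
  have hdvd : ∀ Q : MvPolynomial (Fin N) k, aeval c Q = 0 → F ∣ Q := by
    intro Q hQ
    by_contra hFQ
    obtain ⟨G, hG, A', B', hAB⟩ := exists_elim F Q l₀ hF hl₀ hFQ
    apply hG
    refine zero_of_pderiv_closed {G | aeval c (rename (Subtype.val : {j // j ≠ l₀} → Fin N) G) = 0}
      (fun j => c₀ j) (fun G hG => ?_) (fun G hG j => ?_) G ?_
    · have h5 := hcc _ hG
      rw [eval_rename] at h5
      exact h5
    · have h1 := hclosed j _ ((hmem _).2 hG)
      have h6 : pderiv l₀ (rename (Subtype.val : {j // j ≠ l₀} → Fin N) G) = 0 := by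
        refine pderiv_eq_zero_of_notMem_vars ?_
        intro h6
        have h7 := vars_rename (Subtype.val : {j // j ≠ l₀} → Fin N) G h6
        rw [Finset.mem_image] at h7
        obtain ⟨i, -, hi⟩ := h7
        exact i.2 hi
      rw [h6, mul_zero, sub_zero, hmem, map_mul] at h1
      have h2 := (mul_eq_zero.1 h1).resolve_left fun h0 => hrl (hcc _ h0)
      rw [pderiv_rename Subtype.val_injective] at h2
      exact h2
    · show aeval c (rename Subtype.val G) = 0
      rw [hAB, map_add, map_mul, map_mul, hxc F ((hx F).2 dvd_rfl), hQ]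
      ring
  obtain ⟨φ⟩ := embed (c := c) hx2 hxc fun P hP => (hx P).2 (hdvd P hP)
  obtain ⟨n, ⟨ψ⟩⟩ := (hPure k E hE).2
  exact ⟨n, ⟨ψ.comp φ⟩⟩

end Pool.Agent.Y742.HC
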